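import Pool.Agent.Q49.AF.Outer

set_option autoImplicit false

/-!
Membership of `n` in a set invariant under the Collatz map is asymptotically independent of the prime
factors of `n` outside a window `(N ^ a, N ^ b]`, `0 < a < b` small; in particular of the `k` largest prime
factors of `n`, for every fixed `k`.

For `n ≤ N` let `outer n` be the largest divisor of `n` which is composed of primes outside the window. For
almost all `n ≤ N` the numbers `m ≤ N` with `outer m = outer n` contain the elements of an invariant set of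
density `δ` with frequency `δ`, approximately, uniformly in the set: changing only the prime factors of
`n` in the window suffices for equidistribution. Equivalently the indicator function of the set, minus
`δ`, is orthogonal to all bounded functions of `outer n` (also with the weight `g(n) exp (2 π i α n)`, `g`
multiplicative).
-/

namespace Pool.Agent.Results.MP_d02c56_nt.LargePrimeFactors

open Filter Topology

/-- The Collatz map on the integers. -/
def C (x : ℤ) : ℤ := if x % 2 = 0 then x / 2 else 3 * x + 1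

/-- `S` is invariant under the Collatz map and its inverse. -/
def Invariant (S : Set ℤ) : Prop := ∀ x : ℤ, x ∈ S ↔ C x ∈ S

/-- Among the integers of sign `s` the set `S` has natural density `δ`. -/
def HasDensity (s : ℤ) (S : Set ℤ) (δ : ℝ) : Prop :=
  Tendsto (fun N : ℕ => ({n : ℤ | 0 < s * n ∧ s * n ≤ N ∧ n ∈ S}.ncard : ℝ) / N) atTop (𝓝 δ)

/-- `exp (2 π i θ)` -/
noncomputable def e (θ : ℝ) : ℂ := Complex.exp (2 * Real.pi * θ * Complex.I)

/-- A multiplicative function with values in the closed unit disc. -/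
def Multiplicative (g : ℕ → ℂ) : Prop :=
  (∀ n, ‖g n‖ ≤ 1) ∧ ∀ m n : ℕ, Nat.Coprime m n → g (m * n) = g m * g n

/-- The largest divisor of `n` which is composed of primes outside `(y, z]`: the product, with multiplicity,
of the prime factors `p` of `n` with `p ≤ y` or `p > z`. -/
def outer (y z n : ℕ) : ℕ := (n.primeFactorsList.filter (fun p => p ≤ y ∨ z < p)).prod

/-- The `k` largest prime factors of `n`, with multiplicity, in decreasing order (all prime factors, if `n` has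
fewer than `k`). -/
def top (k n : ℕ) : List ℕ := n.primeFactorsList.reverse.take k

/-- The number of the `n ≤ N` in `E` with `s n ∈ S`. -/
noncomputable def Count (s : ℤ) (N : ℕ) (S : Set ℤ) (E : Set ℕ) : ℕ :=
  {n : ℕ | 1 ≤ n ∧ n ≤ N ∧ n ∈ E ∧ s * n ∈ S}.ncard

open Pool.Agent.W41 Pool.Agent.H499R2.ND Pool.Agent.H499R2.CO Pool.Agent.W41.FU Pool.Agent.W41.MU

theorem outer_eq : outer = Pool.Agent.Q49.AF.outer := rfl
theorem top_eq : top = Pool.Agent.Q49.AF.top := rfl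

theorem inv_of {S : Set ℤ} (hS : Invariant S) : Inv 1 S := by
  intro x
  have e : Td 1 x = C x ∨ Td 1 x = C (C x) := by
    unfold Td C
    by_cases h : x % 2 = 0
    · left; simp [h]
    · right
      have h2 : (3 * x + 1) % 2 = 0 := by omega
      simp [h, h2]
  rcases e with h | h
  · rw [h]; exact hS x
  · rw [h]; exact (hS x).trans (hS (C x))

theorem HD_iff {s : ℤ} (hs : s = 1 ∨ s = -1) {S : Set ℤ} (hS : Invariant S) :
    ∃ δ : ℝ, HD s S δ ∧ HasDensity s S δ := by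
  obtain ⟨δ, -, -, h⟩ := dens_side (d := 1) odd_one (by norm_num) hs (inv_of hS)
  exact ⟨δ, h, HD_ncard hs h⟩

theorem ind_eq (s : ℤ) (S : Set ℤ) (δ : ℝ) (x : ℤ) : S.indicator (fun _ => (1 : ℝ)) (s * x) - δ = bal s S δ x := by
  unfold bal ind
  by_cases h : s * x ∈ S
  · rw [Set.indicator_of_mem h, if_pos h]
  · rw [Set.indicator_of_notMem h, if_neg h]

theorem term_eq (s : ℤ) (S : Set ℤ) (δ : ℝ) (g : ℕ → ℂ) (α : ℝ) (w : ℂ) (n : ℕ) :
    ((S.indicator (fun _ => (1 : ℝ)) (s * n) - δ : ℝ) : ℂ) * g n * e (α * n) * w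
      = tw (bal s S δ) (2 * Real.pi * α) (n : ℤ) * (g n * w) := by
  rw [ind_eq]
  unfold tw e
  have e2 : (2 * (Real.pi : ℂ) * ((α * n : ℝ) : ℂ) * Complex.I) = ((2 * Real.pi * α * ((n : ℤ) : ℝ) : ℝ) : ℂ) * Complex.I := by
    push_cast; ring
  rw [e2]
  ring

theorem one_mult : Multiplicative (fun _ => 1) := ⟨fun _ => by simp, fun _ _ _ => by simp⟩

theorem count_eq (s : ℤ) (N : ℕ) (S : Set ℤ) (E : Set ℕ) [DecidablePred (· ∈ E)] [DecidablePred (· ∈ S)] :
    (Count s N S E : ℝ) = ∑ n ∈ Finset.Icc 1 N, if n ∈ E then (if s * (n : ℤ) ∈ S then (1 : ℝ) else 0) else 0 := by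
  have e1 : {n : ℕ | 1 ≤ n ∧ n ≤ N ∧ n ∈ E ∧ s * n ∈ S} =
      ((Finset.Icc 1 N).filter (fun n : ℕ => n ∈ E ∧ s * (n : ℤ) ∈ S) : Finset ℕ) := by
    ext n
    simp only [Set.mem_ofPred_eq, Finset.coe_filter, Finset.mem_Icc]
    tauto
  unfold Count
  rw [e1, Set.ncard_coe_finset, Finset.card_filter]
  push_cast
  apply Finset.sum_congr rfl; intro n _
  by_cases h1 : n ∈ E <;> by_cases h2 : s * (n : ℤ) ∈ S <;> simp [h1, h2]

open scoped Classical in
theorem count_sub (s : ℤ) (N : ℕ) (S : Set ℤ) (δ : ℝ) (E : Set ℕ) :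
    (Count s N S E : ℝ) - δ * Count s N Set.univ E
      = ∑ n ∈ Finset.Icc 1 N, if n ∈ E then (S.indicator (fun _ => (1 : ℝ)) (s * n) - δ) else 0 := by
  rw [count_eq, count_eq, Finset.mul_sum, ← Finset.sum_sub_distrib]
  apply Finset.sum_congr rfl; intro n _
  by_cases h2 : n ∈ E
  · rw [if_pos h2, if_pos h2, if_pos h2]
    by_cases h3 : s * (n : ℤ) ∈ S
    · rw [Set.indicator_of_mem h3, if_pos h3, if_pos (Set.mem_univ _)]; ring
    · rw [Set.indicator_of_notMem h3, if_neg h3, if_pos (Set.mem_univ _)]; ring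
  · rw [if_neg h2, if_neg h2, if_neg h2]; simp

/-- `outer n ≤ n` -/
theorem outer_mem {y z n N : ℕ} (h1 : 1 ≤ n) (h2 : n ≤ N) : outer y z n ∈ Finset.Icc 1 N := by
  have hne : n ≠ 0 := by omega
  have h3 : outer y z n ∣ n := by
    unfold outer
    conv_rhs => rw [← Nat.prod_primeFactorsList hne]
    exact List.Sublist.prod_dvd_prod List.filter_sublist
  rw [Finset.mem_Icc]
  have h4 := Nat.le_of_dvd h1 h3
  have h5 : 0 < outer y z n := Nat.pos_of_dvd_of_pos h3 h1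
  omega

/-- the families of integers with given outer part -/
theorem families {s : ℤ} {S : Set ℤ} {δ ε : ℝ} {N y z : ℕ}
    (h : ∀ Φ : ℕ → ℂ, (∀ n, ‖Φ n‖ ≤ 1) →
      ‖∑ n ∈ Finset.Icc 1 N, ((S.indicator (fun _ => (1 : ℝ)) (s * n) - δ : ℝ) : ℂ) * Φ (outer y z n)‖ ≤ ε * N) :
    ∑ r ∈ Finset.Icc 1 N, |(Count s N S {n | outer y z n = r} : ℝ) - δ * Count s N Set.univ {n | outer y z n = r}| ≤ ε * N := by
  classical
  set A : ℕ → ℝ := fun r => (Count s N S {n | outer y z n = r} : ℝ) - δ * Count s N Set.univ {n | outer y z n = r} with hA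
  set σ : ℕ → ℝ := fun r => if 0 ≤ A r then 1 else -1 with hσ
  have hσA : ∀ r, |A r| = σ r * A r := by
    intro r
    rw [hσ]; simp only
    split_ifs with h1
    · rw [abs_of_nonneg h1, one_mul]
    · rw [abs_of_neg (not_le.1 h1)]; ring
  have h1 := h (fun r => (σ r : ℂ)) (fun r => by
    rw [Complex.norm_real, Real.norm_eq_abs, hσ]; simp only; split_ifs <;> simp)
  have e1 : ∑ n ∈ Finset.Icc 1 N, ((S.indicator (fun _ => (1 : ℝ)) (s * n) - δ : ℝ) : ℂ) * (σ (outer y z n) : ℂ)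
      = ((∑ r ∈ Finset.Icc 1 N, σ r * A r : ℝ) : ℂ) := by
    have e2 : ∀ r, σ r * A r = ∑ n ∈ Finset.Icc 1 N, if outer y z n = r then σ r * (S.indicator (fun _ => (1 : ℝ)) (s * n) - δ) else 0 := by
      intro r
      rw [hA]; simp only
      rw [count_sub, Finset.mul_sum]
      apply Finset.sum_congr rfl; intro n _
      simp only [Set.mem_ofPred_eq]
      split_ifs <;> simp
    simp_rw [e2]
    rw [Finset.sum_comm, Complex.ofReal_sum]
    apply Finset.sum_congr rfl; intro n hn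
    rw [Finset.mem_Icc] at hn
    rw [Finset.sum_ite_eq, if_pos (outer_mem hn.1 hn.2)]
    push_cast; ring
  rw [e1, Complex.norm_real, Real.norm_eq_abs] at h1
  simp_rw [← hσA] at h1
  exact (le_abs_self _).trans h1

/-- the prime factors outside a window -/
theorem outer_thm {s : ℤ} (hs : s = 1 ∨ s = -1) {ε : ℝ} (hε : 0 < ε) : ∃ b₀ : ℝ, 0 < b₀ ∧
    ∀ b : ℝ, 0 < b → b ≤ b₀ → ∃ a : ℝ, 0 < a ∧ a < b ∧ ∃ N₀ : ℕ, ∀ S : Set ℤ, Invariant S →
      ∃ δ : ℝ, HasDensity s S δ ∧ ∀ N : ℕ, N₀ ≤ N → ∀ y z : ℕ, (y : ℝ) ≤ (N : ℝ) ^ a → (N : ℝ) ^ b ≤ z →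
        (∀ g : ℕ → ℂ, Multiplicative g → ∀ α : ℝ, ∀ Φ : ℕ → ℂ, (∀ n, ‖Φ n‖ ≤ 1) →
          ‖∑ n ∈ Finset.Icc 1 N, ((S.indicator (fun _ => (1 : ℝ)) (s * n) - δ : ℝ) : ℂ) * g n * e (α * n) *
            Φ (outer y z n)‖ ≤ ε * N) ∧
        ∑ r ∈ Finset.Icc 1 N, |(Count s N S {n | outer y z n = r} : ℝ) -
          δ * Count s N Set.univ {n | outer y z n = r}| ≤ ε * N := by
  obtain ⟨b0, hb0, H⟩ := Pool.Agent.Q49.AF.orth_outer hs (show 0 < min ε 1 from lt_min hε one_pos) (min_le_right _ _)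
  refine ⟨b0, hb0, fun b hb hbb => ?_⟩
  obtain ⟨a, ha, hab, N0, hN0, H'⟩ := H b hb hbb
  refine ⟨a, ha, hab, N0, fun S hS => ?_⟩
  obtain ⟨δ, hδ, hδ'⟩ := HD_iff hs hS
  have key : ∀ N : ℕ, N0 ≤ N → ∀ y z : ℕ, (y : ℝ) ≤ (N : ℝ) ^ a → (N : ℝ) ^ b ≤ z →
      ∀ g : ℕ → ℂ, Multiplicative g → ∀ α : ℝ, ∀ Φ : ℕ → ℂ, (∀ n, ‖Φ n‖ ≤ 1) →
      ‖∑ n ∈ Finset.Icc 1 N, ((S.indicator (fun _ => (1 : ℝ)) (s * n) - δ : ℝ) : ℂ) * g n * e (α * n) *
            Φ (outer y z n)‖ ≤ ε * N := by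
    intro N hN y z hy hz g hg α Φ hΦ
    simp_rw [term_eq]
    exact (H' S (inv_of hS) δ hδ N hN y z hy hz (2 * Real.pi * α) g hg Φ hΦ).trans
      (mul_le_mul_of_nonneg_right (min_le_left _ _) (Nat.cast_nonneg _))
  refine ⟨δ, hδ', fun N hN y z hy hz => ⟨key N hN y z hy hz, families fun Φ hΦ => ?_⟩⟩
  have h1 := key N hN y z hy hz (fun _ => 1) one_mult 0 Φ hΦ
  have e0 : e 0 = 1 := by unfold e; simp
  simpa only [zero_mul, e0, mul_one] using h1

/-- the largest prime factors -/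
theorem top_thm {s : ℤ} (hs : s = 1 ∨ s = -1) (k : ℕ) {ε : ℝ} (hε : 0 < ε) : ∃ N₀ : ℕ, ∀ S : Set ℤ, Invariant S →
      ∃ δ : ℝ, HasDensity s S δ ∧ ∀ N : ℕ, N₀ ≤ N →
        (∀ g : ℕ → ℂ, Multiplicative g → ∀ α : ℝ, ∀ Φ : List ℕ → ℂ, (∀ l, ‖Φ l‖ ≤ 1) →
          ‖∑ n ∈ Finset.Icc 1 N, ((S.indicator (fun _ => (1 : ℝ)) (s * n) - δ : ℝ) : ℂ) * g n * e (α * n) *
            Φ (top k n)‖ ≤ ε * N) ∧
        ∀ A : Set (List ℕ), |(Count s N S {n | top k n ∈ A} : ℝ) - δ * Count s N Set.univ {n | top k n ∈ A}| ≤ ε * N := by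
  classical
  obtain ⟨N0, hN0, H⟩ := Pool.Agent.Q49.AF.orth_top hs (show 0 < min ε 1 from lt_min hε one_pos) (min_le_right _ _) k
  refine ⟨N0, fun S hS => ?_⟩
  obtain ⟨δ, hδ, hδ'⟩ := HD_iff hs hS
  have key : ∀ N : ℕ, N0 ≤ N → ∀ g : ℕ → ℂ, Multiplicative g → ∀ α : ℝ, ∀ Φ : List ℕ → ℂ, (∀ l, ‖Φ l‖ ≤ 1) →
      ‖∑ n ∈ Finset.Icc 1 N, ((S.indicator (fun _ => (1 : ℝ)) (s * n) - δ : ℝ) : ℂ) * g n * e (α * n) *
            Φ (top k n)‖ ≤ ε * N := by
    intro N hN g hg α Φ hΦ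
    simp_rw [term_eq]
    exact (H S (inv_of hS) δ hδ N hN (2 * Real.pi * α) g hg Φ hΦ).trans
      (mul_le_mul_of_nonneg_right (min_le_left _ _) (Nat.cast_nonneg _))
  refine ⟨δ, hδ', fun N hN => ⟨key N hN, fun A => ?_⟩⟩
  have h1 := key N hN (fun _ => 1) one_mult 0 (fun l => if l ∈ A then 1 else 0) (fun l => by split_ifs <;> simp)
  have e0 : e 0 = 1 := by unfold e; simp
  rw [count_sub, ← Real.norm_eq_abs, ← Complex.norm_real, Complex.ofReal_sum]
  refine le_trans (le_of_eq ?_) h1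
  congr 1
  apply Finset.sum_congr rfl; intro n _
  simp only [zero_mul, e0, mul_one, Set.mem_ofPred_eq]
  split_ifs <;> simp

/-- sufficient sets -/
theorem sufficient {s : ℤ} (hs : s = 1 ∨ s = -1) {S : Set ℤ} (hS : Invariant S) (k : ℕ) (A : ℕ → Set (List ℕ))
    {κ : ℝ} (hκ : 0 < κ) {ψ : ℕ → ℝ} (hψ : Tendsto ψ atTop (𝓝 0))
    (h : ∃ᶠ N : ℕ in atTop, κ * N ≤ Count s N Set.univ {n | top k n ∈ A N} ∧
      (Count s N Sᶜ {n | top k n ∈ A N} : ℝ) ≤ ψ N * N) :
    ∀ x : ℤ, 0 < s * x → x ∈ S := by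
  intro x hx
  by_contra hcon
  have hSc : Invariant Sᶜ := fun x => not_congr (hS x)
  obtain ⟨δ, hδ, hδ'⟩ := HD_iff hs hSc
  have hδ0 : 0 < δ := one_pos hs (inv_of hSc) hcon hx hδ
  obtain ⟨N0, hN0⟩ := top_thm hs k (show 0 < δ * κ / 2 by positivity)
  obtain ⟨δ₁, hd1, H⟩ := hN0 Sᶜ hSc
  have hdd : δ₁ = δ := tendsto_nhds_unique hd1 hδ'
  rw [hdd] at H
  have h1 : ∀ᶠ N : ℕ in atTop, ψ N < δ * κ / 2 := (tendsto_order.1 hψ).2 _ (by positivity)
  obtain ⟨N, ⟨h2, h3⟩, h4, h5⟩ := (h.and_eventually (h1.and (eventually_ge_atTop (N0 + 1)))).exists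
  have h6 := (abs_le.1 ((H N (by omega)).2 (A N))).1
  have hNp : (0 : ℝ) < N := by exact_mod_cast (by omega : 0 < N)
  have h7 : ψ N * N < δ * κ / 2 * N := mul_lt_mul_of_pos_right h4 hNp
  have h8 : δ * (κ * N) ≤ δ * Count s N Set.univ {n | top k n ∈ A N} := mul_le_mul_of_nonneg_left h2 hδ0.le
  linarith

/-- INVARIANT SETS AND LARGE PRIME FACTORS. Let `s` be a sign.
(1) For every `ε > 0` and all small `b > 0` there are `0 < a < b` and `N₀` such that for every invariant set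
`S`, of density `δ` among the integers of sign `s` (the density exists), all `N ≥ N₀` and all `y ≤ N ^ a`,
`z ≥ N ^ b`: the sum of `(1_S(s n) - δ) g(n) exp (2 π i α n) Φ(outer y z n)` over the `n ≤ N` is at most
`ε N` in absolute value, for every multiplicative function `g` with values in the unit disc, every real
`α` and EVERY function `Φ` with values in the unit disc; and the sum over all `r ≤ N` of the absolute
differences between the number of the `n ≤ N` with `outer y z n = r`, `s n ∈ S`, and `δ` times the number of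
the `n ≤ N` with `outer y z n = r` is at most `ε N`.
(2) For every `k` and `ε > 0`, if `N` is large, the same is true with an arbitrary function of the `k` largest
prime factors of `n` in place of `Φ(outer y z n)`; and for every invariant set `S` of density `δ` and every
set `A` of lists the number of the `n ≤ N` with `s n ∈ S` whose `k` largest prime factors form a list in
`A` is `δ` times the number of the `n ≤ N` whose `k` largest prime factors form a list in `A`, up to `ε N`.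
(3) Let the sets `A N` of lists depend on `N` in any way. If, for infinitely many `N`, the `k` largest prime
factors of at least `κ N` of the `n ≤ N` form a list in `A N` and almost all of these `n` satisfy
`s n ∈ S`, then `S` contains all integers of the sign of `s`. -/
theorem result (s : ℤ) (hs : s = 1 ∨ s = -1) :
    (∀ ε : ℝ, 0 < ε → ∃ b₀ : ℝ, 0 < b₀ ∧
      ∀ b : ℝ, 0 < b → b ≤ b₀ → ∃ a : ℝ, 0 < a ∧ a < b ∧ ∃ N₀ : ℕ, ∀ S : Set ℤ, Invariant S →
      ∃ δ : ℝ, HasDensity s S δ ∧ ∀ N : ℕ, N₀ ≤ N → ∀ y z : ℕ, (y : ℝ) ≤ (N : ℝ) ^ a → (N : ℝ) ^ b ≤ z →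
        (∀ g : ℕ → ℂ, Multiplicative g → ∀ α : ℝ, ∀ Φ : ℕ → ℂ, (∀ n, ‖Φ n‖ ≤ 1) →
          ‖∑ n ∈ Finset.Icc 1 N, ((S.indicator (fun _ => (1 : ℝ)) (s * n) - δ : ℝ) : ℂ) * g n * e (α * n) *
            Φ (outer y z n)‖ ≤ ε * N) ∧
        ∑ r ∈ Finset.Icc 1 N, |(Count s N S {n | outer y z n = r} : ℝ) -
          δ * Count s N Set.univ {n | outer y z n = r}| ≤ ε * N) ∧
    (∀ (k : ℕ) (ε : ℝ), 0 < ε → ∃ N₀ : ℕ, ∀ S : Set ℤ, Invariant S →
      ∃ δ : ℝ, HasDensity s S δ ∧ ∀ N : ℕ, N₀ ≤ N →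
        (∀ g : ℕ → ℂ, Multiplicative g → ∀ α : ℝ, ∀ Φ : List ℕ → ℂ, (∀ l, ‖Φ l‖ ≤ 1) →
          ‖∑ n ∈ Finset.Icc 1 N, ((S.indicator (fun _ => (1 : ℝ)) (s * n) - δ : ℝ) : ℂ) * g n * e (α * n) *
            Φ (top k n)‖ ≤ ε * N) ∧
        ∀ A : Set (List ℕ), |(Count s N S {n | top k n ∈ A} : ℝ) -
          δ * Count s N Set.univ {n | top k n ∈ A}| ≤ ε * N) ∧
    (∀ S : Set ℤ, Invariant S → ∀ (k : ℕ) (A : ℕ → Set (List ℕ)) (κ : ℝ) (ψ : ℕ → ℝ), 0 < κ →
      Tendsto ψ atTop (𝓝 0) → (∃ᶠ N : ℕ in atTop, κ * N ≤ Count s N Set.univ {n | top k n ∈ A N} ∧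
        (Count s N Sᶜ {n | top k n ∈ A N} : ℝ) ≤ ψ N * N) → ∀ x : ℤ, 0 < s * x → x ∈ S) :=
  ⟨fun _ hε => outer_thm hs hε, fun k _ hε => top_thm hs k hε,
    fun _ hS k A _ _ hκ hψ h => sufficient hs hS k A hκ hψ h⟩

end Pool.Agent.Results.MP_d02c56_nt.LargePrimeFactors
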