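import Mathlib
import Pool.Agent.Q49.WA.Core
import Pool.Agent.Results.MP_edb5be_nt.SparseShifts

set_option autoImplicit false

/-!
# Waring's problem with one summand in an invariant set of the Collatz map

Let `S` be a set of integers that is invariant under the Collatz map and its inverse, for example the
basin of a cycle or any merging class, and `δ` its density among the integers of sign `s`. Let there be
given families of integers of size at most `N`, at least `2 t` of which have a `t`-th additive energy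
bounded by a constant times that of a random family; for example the values of given nonconstant
polynomials at the first few integers. Then for EVERY integer `n` of size `O(N)` the number of the
representations of `n` as a sum of `|x|`, where `x` is in `S` and has sign `s`, and of one member of
each family, is `δ` times the number of these representations in which `x` is arbitrary, up to `ε`
times the number of all choices; uniformly in `n`, in the families and in `S`. In particular every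
large integer is a sum of `|x|` and of `r` positive `k`-th powers, `r = r(k)`, if `S` contains an
integer of sign `s`. One family suffices for almost all `n`. So Collatz' conjecture is true (all
trajectories of integers reach the known cycles) if for infinitely many `n` almost all the numbers
`n - P(m 1) - ... - P(m r)` reach them.

Method: the circle method on a cyclic group, with the Fourier uniformity of the invariant sets
(starting file `FourierUniformity`), bounds of moments of Weyl sums (starting file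
`Pool/Agent/Y834/CD/Poly.lean`), and for the statement on almost all `n` a duality and the starting
file `SparseShifts` of MP_edb5be_nt.
-/

namespace Pool.Agent.Results.MP_d02c56_nt.WaringProblem

open Filter Topology

/-- The Collatz map on the integers. -/
def C (x : ℤ) : ℤ := if x % 2 = 0 then x / 2 else 3 * x + 1

/-- `S` is invariant under the Collatz map and its inverse. -/
def Invariant (S : Set ℤ) : Prop := ∀ x : ℤ, x ∈ S ↔ C x ∈ S

/-- Among the integers of sign `s` the set `S` has natural density `δ`. -/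
def HasDensity (s : ℤ) (S : Set ℤ) (δ : ℝ) : Prop :=
  Tendsto (fun N : ℕ => ({n : ℤ | 0 < s * n ∧ s * n ≤ N ∧ n ∈ S}.ncard : ℝ) / N) atTop (𝓝 δ)

/-- The number of the pairs of `t`-tuples of members of the family `a` with the same sum. -/
noncomputable def energy (t : ℕ) {L : ℕ} (a : Fin L → ℤ) : ℕ :=
  {p : (Fin t → Fin L) × (Fin t → Fin L) | ∑ i, a (p.1 i) = ∑ i, a (p.2 i)}.ncard

/-- The energy of the family `a` is at most `K L ^ (2 t) / N`. -/
def Spread (t : ℕ) (K : ℝ) (N : ℕ) {L : ℕ} (a : Fin L → ℤ) : Prop :=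
  (energy t a : ℝ) ≤ K * (L : ℝ) ^ (2 * t) / N

/-- The number of the choices `v` of one member `a j (v j)` of each family such that the difference
`d` of `n` and the sum of these members is positive and `s d` is in `S`; so `n` is the sum of
these members and of `|x|`, where `x = s d` is an element of `S` of sign `s`. -/
noncomputable def reps (s : ℤ) (S : Set ℤ) (n : ℤ) {r : ℕ} {L : Fin r → ℕ} (a : ∀ j, Fin (L j) → ℤ) : ℕ :=
  {v : ∀ j, Fin (L j) | 0 < n - ∑ j, a j (v j) ∧ s * (n - ∑ j, a j (v j)) ∈ S}.ncard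

/-- The values of `P` at `1, ..., L`. -/
noncomputable def vals (P : Polynomial ℤ) (L : ℕ) : Fin L → ℤ :=
  fun m => P.eval (((m : ℕ) + 1 : ℕ) : ℤ)

/-- The number of the `r`-tuples of positive integers `m j` with `|P (m j)| ≤ n` for which the
difference `d` of `n` and the sum of the `P (m j)` is positive and `s d` is in `S`. -/
noncomputable def polyReps (s : ℤ) (S : Set ℤ) (n : ℕ) (P : Polynomial ℤ) (r : ℕ) : ℕ :=
  {m : Fin r → ℕ | (∀ j, 1 ≤ m j ∧ |P.eval (m j : ℤ)| ≤ n) ∧ 0 < (n : ℤ) - ∑ j, P.eval (m j : ℤ) ∧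
    s * ((n : ℤ) - ∑ j, P.eval (m j : ℤ)) ∈ S}.ncard

/-- The number of the `i` such that `s (n - a i)` is in `S`. -/
noncomputable def count (s : ℤ) (S : Set ℤ) (n : ℤ) {L : ℕ} (a : Fin L → ℤ) : ℕ :=
  {i : Fin L | s * (n - a i) ∈ S}.ncard

/-- The union of the five known cycles. -/
def Known : Finset ℤ := {1, 4, 2, -1, -2, -5, -14, -7, -20, -10, -17, -50, -25, -74, -37, -110,
  -55, -164, -82, -41, -122, -61, -182, -91, -272, -136, -68, -34, 0}

/-- The trajectory of `x` reaches one of the five known cycles. -/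
def Reaches (x : ℤ) : Prop := ∃ k : ℕ, C^[k] x ∈ Known

/-! ### proofs -/

open Pool.Agent.Y834.CD Finset

theorem known_closed : ∀ x ∈ Known, C x ∈ Known := by decide

theorem reaches_inv : Invariant {x | Reaches x} := by
  intro x
  constructor
  · rintro ⟨k, hk⟩
    cases k with
    | zero => exact ⟨0, known_closed x hk⟩
    | succ k => exact ⟨k, by rw [Function.iterate_succ_apply] at hk; exact hk⟩
  · rintro ⟨k, hk⟩
    exact ⟨k + 1, by rw [Function.iterate_succ_apply]; exact hk⟩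

theorem unreaches_inv : Invariant {x | ¬ Reaches x} := fun x => not_congr (reaches_inv x)

theorem inv_T {S : Set ℤ} (hS : Invariant S) : Pool.Agent.Results.MP_edb5be_nt.SparseShifts.Invariant S := by
  intro x
  unfold Pool.Agent.Results.MP_edb5be_nt.SparseShifts.T
  by_cases h : x % 2 = 0
  · rw [if_pos h]
    have := hS x
    unfold C at this
    rwa [if_pos h] at this
  · rw [if_neg h]
    have h1 := hS x
    have h2 := hS (3 * x + 1)
    have h3 : (3 * x + 1) % 2 = 0 := by omega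
    unfold C at h1 h2
    rw [if_neg h] at h1
    rw [if_pos h3] at h2
    exact h1.trans h2

theorem energy_eq (t : ℕ) {L : ℕ} (a : Fin L → ℤ) : energy t a = en t a :=
  Pool.Agent.Results.MP_edb5be_nt.SparseShifts.energy_eq t a

theorem reps_eq (s : ℤ) (S : Set ℤ) (n : ℤ) {r : ℕ} {L : Fin r → ℕ} (a : ∀ j, Fin (L j) → ℤ) (δ : ℝ) :
    (reps s S n a : ℝ) - δ * reps s Set.univ n a = ∑ v : (∀ j, Fin (L j)),
      (if 0 < n - ∑ j, a j (v j) then S.indicator (fun _ => (1 : ℝ)) (s * (n - ∑ j, a j (v j))) - δ else 0) := by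
  classical
  have h1 : ∀ U : Set ℤ, (reps s U n a : ℝ) = ∑ v : (∀ j, Fin (L j)),
      (if 0 < n - ∑ j, a j (v j) then U.indicator (fun _ => (1 : ℝ)) (s * (n - ∑ j, a j (v j))) else 0) := by
    intro U
    have h2 : {v : ∀ j, Fin (L j) | 0 < n - ∑ j, a j (v j) ∧ s * (n - ∑ j, a j (v j)) ∈ U} =
        (((univ : Finset (∀ j, Fin (L j))).filter (fun v => 0 < n - ∑ j, a j (v j) ∧
          s * (n - ∑ j, a j (v j)) ∈ U) : Finset _) : Set _) := by
      ext v; simp
    unfold reps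
    rw [h2, Set.ncard_coe_finset, card_filter]
    push_cast
    apply sum_congr rfl; intro v _
    by_cases hA : 0 < n - ∑ j, a j (v j)
    · by_cases hB : s * (n - ∑ j, a j (v j)) ∈ U
      · rw [if_pos ⟨hA, hB⟩, if_pos hA, Set.indicator_of_mem hB]
      · rw [if_neg (fun h => hB h.2), if_pos hA, Set.indicator_of_notMem hB]
    · rw [if_neg (fun h => hA h.1), if_neg hA]
  rw [h1 S, h1 Set.univ, mul_sum, ← sum_sub_distrib]
  apply sum_congr rfl; intro v _
  split_ifs <;> simp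

/-- the general theorem -/
theorem general {s : ℤ} (hs : s = 1 ∨ s = -1) (r t B : ℕ) (ht : 1 ≤ t) (K : ℝ) {ε : ℝ} (hε : 0 < ε) :
    ∃ N₀ : ℕ, ∀ S : Set ℤ, Invariant S → ∃ δ : ℝ, HasDensity s S δ ∧
      ∀ N : ℕ, N₀ ≤ N → ∀ (L : Fin r → ℕ) (a : ∀ j, Fin (L j) → ℤ), (∀ j i, |a j i| ≤ N) →
      ∀ J : Finset (Fin r), 2 * t ≤ J.card → (∀ j ∈ J, Spread t K N (a j)) →
      ∀ n : ℤ, |n| ≤ B * N →
        |(reps s S n a : ℝ) - δ * reps s Set.univ n a| ≤ ε * ∏ j, (L j : ℝ) := by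
  set K' : ℝ := max K 0 with hK'
  have hK0 : 0 ≤ K' := le_max_right _ _
  set w : ℝ := ((B + r + t : ℕ) : ℝ) with hw
  have hw0 : 0 < w := by rw [hw]; exact_mod_cast (by omega : 0 < B + r + t)
  have hrK : (0 : ℝ) ≤ r * K' := mul_nonneg (Nat.cast_nonneg _) hK0
  set ε₁ : ℝ := ε / (w * (r * K' + 1)) with hε₁
  have hε₁0 : 0 < ε₁ := by rw [hε₁]; positivity
  obtain ⟨N₀, H⟩ := Pool.Agent.Results.MP_edb5be_nt.SparseShifts.uniform hs hε₁0
  refine ⟨N₀ + 1, fun S hS => ?_⟩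
  obtain ⟨δ, hδ, h⟩ := H S (inv_T hS)
  refine ⟨δ, hδ, fun N hN L a ha J hJ hsp n hn => ?_⟩
  have hN0 : (0 : ℝ) < N := by exact_mod_cast (by omega : 0 < N)
  rw [reps_eq]
  have h1 := Pool.Agent.Q49.WA.finite_waring (K := K') (E := ε₁ * w) ht (by omega : 0 < N) hK0
    (fun n => S.indicator (fun _ => (1 : ℝ)) (s * n)) δ (fun α => by
      have h2 := h ((B + r + t) * N) (by nlinarith) α
      refine h2.trans (le_of_eq ?_)
      rw [hw]; push_cast; ring) a ha hJ (fun j hj => by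
      have h3 := hsp j hj
      unfold Spread at h3
      rw [energy_eq, le_div_iff₀ hN0] at h3
      refine h3.trans (mul_le_mul_of_nonneg_right (le_max_left _ _) (by positivity))) n hn
  refine h1.trans ?_
  apply mul_le_mul_of_nonneg_right _ (prod_nonneg fun j _ => Nat.cast_nonneg _)
  calc ε₁ * w * (r * K') = ε * ((r * K') / (r * K' + 1)) := by rw [hε₁]; field_simp
    _ ≤ ε * 1 := by
        apply mul_le_mul_of_nonneg_left _ hε.le
        rw [div_le_one (by positivity)]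
        linarith
    _ = ε := mul_one _

theorem count_eq (s : ℤ) (S : Set ℤ) (n : ℤ) {L : ℕ} (a : Fin L → ℤ) (δ : ℝ) :
    (count s S n a : ℝ) - δ * L = ∑ i, (S.indicator (fun _ => (1 : ℝ)) (s * (n - a i)) - δ) := by
  classical
  have h2 : {i : Fin L | s * (n - a i) ∈ S} =
      (((univ : Finset (Fin L)).filter (fun i => s * (n - a i) ∈ S) : Finset _) : Set _) := by
    ext v; simp
  unfold count
  rw [h2, Set.ncard_coe_finset, card_filter, sum_sub_distrib, sum_const, card_univ, Fintype.card_fin,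
    nsmul_eq_mul, mul_comm δ]
  push_cast
  congr 1

/-- one family, almost all integers -/
theorem almost_all {s : ℤ} (hs : s = 1 ∨ s = -1) (t : ℕ) (K : ℝ) {ε : ℝ} (hε : 0 < ε) :
    ∃ N₀ : ℕ, ∀ S : Set ℤ, Invariant S → ∃ δ : ℝ, HasDensity s S δ ∧
      ∀ N : ℕ, N₀ ≤ N → ∀ (L : ℕ) (a : Fin L → ℤ), (∀ i, |a i| ≤ N) → Spread t K N a →
        ({n : ℕ | N < n ∧ n ≤ 2 * N ∧ ε * L < |(count s S n a : ℝ) - δ * L|}.ncard : ℝ) ≤ ε * N := by
  classical
  set η : ℝ := ε ^ 2 / 2 with hη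
  have hη0 : 0 < η := by rw [hη]; positivity
  obtain ⟨N₀, H⟩ := Pool.Agent.Results.MP_edb5be_nt.SparseShifts.general hs 1 t K hη0
  refine ⟨N₀ + 1, fun S hS => ?_⟩
  obtain ⟨δ, hδ, h⟩ := H (fun _ => S) (fun _ => inv_T hS)
  have hδ01 := Pool.Agent.Results.MP_edb5be_nt.SparseShifts.density_mem hs (hδ 0)
  refine ⟨δ 0, hδ 0, fun N hN L a ha hsp => ?_⟩
  have hN0 : (0 : ℝ) < N := by exact_mod_cast (by omega : 0 < N)
  rcases Nat.eq_zero_or_pos L with hL | hL
  · subst hL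
    have : {n : ℕ | N < n ∧ n ≤ 2 * N ∧ ε * (0 : ℕ) < |(count s S n a : ℝ) - δ 0 * (0 : ℕ)|} = ∅ := by
      ext n
      simp only [Set.mem_ofPred_eq, Set.mem_empty_iff_false, iff_false]
      rintro ⟨-, -, h3⟩
      rw [count_eq] at h3
      simp at h3
    rw [this]
    simp only [Set.ncard_empty, Nat.cast_zero]
    positivity
  have hL0 : (0 : ℝ) < L := by exact_mod_cast hL
  set g : ℤ → ℝ := S.indicator (fun _ => (1 : ℝ)) with hg
  have hg01 : ∀ x, 0 ≤ g x ∧ g x ≤ 1 := by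
    intro x
    rw [hg, Set.indicator_apply]
    split_ifs <;> norm_num
  set D : ℕ → ℝ := fun n => ∑ i, (g (s * ((n : ℤ) - a i)) - δ 0) with hD
  set G : ℕ → ℝ := fun n => if 0 ≤ D n then 1 else -1 with hG
  have hGD : ∀ n, G n * D n = |D n| := by
    intro n
    simp only [hG]
    split_ifs with h1
    · rw [abs_of_nonneg h1, one_mul]
    · rw [abs_of_neg (not_le.1 h1)]; ring
  have hG1 : ∀ n, |G n| ≤ 1 := by
    intro n
    simp only [hG]
    split_ifs <;> norm_num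
  set dev : Fin L → ℝ := fun i => ∑ x ∈ Ioc N (2 * N), G x * (g (s * ((x : ℤ) - a i)) - δ 0) with hdev
  have h1 := h N (by omega) (fun _ => L) (fun _ i => - a i) (fun _ => by
    refine ⟨fun i => by rw [abs_neg]; exact ha i, ?_⟩
    unfold Spread at hsp
    rw [Pool.Agent.Results.MP_edb5be_nt.SparseShifts.energy_eq, en_neg]
    rwa [energy_eq] at hsp) G hG1
  set bad := (univ : Finset (Fin L)).filter (fun i => η * N < |dev i|) with hbad
  have h2 : (bad.card : ℝ) ≤ η * L := by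
    have h3 : (bad : Set (Fin L)).ncard ≤
        (Pool.Agent.Results.MP_edb5be_nt.SparseShifts.Exceptional s η N G (fun (_ : Fin 1) i => - a i)
          (fun _ => S) δ).ncard := by
      have hinj : Function.Injective (fun (i : Fin L) => (fun _ : Fin 1 => i)) := by
        intro i j hij
        exact congrFun hij 0
      rw [← Set.ncard_image_of_injective _ hinj]
      apply Set.ncard_le_ncard _ (Set.toFinite _)
      rintro v ⟨i, hi, rfl⟩
      rw [hbad, Finset.mem_coe, mem_filter] at hi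
      unfold Pool.Agent.Results.MP_edb5be_nt.SparseShifts.Exceptional
        Pool.Agent.Results.MP_edb5be_nt.SparseShifts.deviation
      rw [Set.mem_ofPred_eq]
      simp only [Finset.univ_unique, prod_singleton]
      refine lt_of_lt_of_eq hi.2 ?_
      congr 1
    rw [Set.ncard_coe_finset] at h3
    have h4 : (bad.card : ℝ) ≤ ((Pool.Agent.Results.MP_edb5be_nt.SparseShifts.Exceptional s η N G (fun (_ : Fin 1) i => - a i)
          (fun _ => S) δ).ncard : ℝ) := by exact_mod_cast h3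
    refine h4.trans (h1.trans (le_of_eq ?_))
    simp
  have hdev1 : ∀ i, |dev i| ≤ N := by
    intro i
    simp only [hdev]
    refine (abs_sum_le_sum_abs _ _).trans ?_
    calc ∑ x ∈ Ioc N (2 * N), |G x * (g (s * ((x : ℤ) - a i)) - δ 0)| ≤ ∑ _x ∈ Ioc N (2 * N), (1 : ℝ) := by
          apply sum_le_sum; intro x _
          rw [abs_mul]
          have e1 := hg01 (s * ((x : ℤ) - a i))
          have e2 : |g (s * ((x : ℤ) - a i)) - δ 0| ≤ 1 := by
            rw [abs_le]; constructor <;> linarith [hδ01.1, hδ01.2]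
          calc _ ≤ (1 : ℝ) * 1 := mul_le_mul (hG1 x) e2 (abs_nonneg _) zero_le_one
            _ = 1 := one_mul _
      _ = N := by rw [sum_const, Nat.card_Ioc, nsmul_eq_mul, mul_one, show 2 * N - N = N by omega]
  have h3 : ∑ x ∈ Ioc N (2 * N), |D x| ≤ 2 * η * N * L := by
    have e1 : ∑ x ∈ Ioc N (2 * N), |D x| = ∑ i, dev i := by
      simp only [hdev]
      rw [sum_comm]
      apply sum_congr rfl; intro x _
      rw [← hGD, ← mul_sum]
    rw [e1, ← sum_filter_add_sum_filter_not univ (fun i => η * N < |dev i|)]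
    have e2 : ∑ i ∈ univ.filter (fun i => η * N < |dev i|), dev i ≤ bad.card * N := by
      rw [← nsmul_eq_mul, ← sum_const]
      exact sum_le_sum fun i _ => (le_abs_self _).trans (hdev1 i)
    have e3 : ∑ i ∈ univ.filter (fun i => ¬ η * N < |dev i|), dev i ≤ L * (η * N) := by
      calc _ ≤ ∑ _i ∈ univ.filter (fun i => ¬ η * N < |dev i|), η * N := by
            apply sum_le_sum; intro i hi
            rw [mem_filter, not_lt] at hi
            exact (le_abs_self _).trans hi.2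
        _ = ((univ.filter (fun i => ¬ η * N < |dev i|)).card : ℝ) * (η * N) := by
            rw [sum_const, nsmul_eq_mul]
        _ ≤ L * (η * N) := by
            apply mul_le_mul_of_nonneg_right _ (by positivity)
            have := card_le_univ (univ.filter (fun i : Fin L => ¬ η * N < |dev i|))
            rw [Fintype.card_fin] at this
            exact_mod_cast this
    have e4 : (bad.card : ℝ) * N ≤ η * L * N := mul_le_mul_of_nonneg_right h2 hN0.le
    linarith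
  have h4 : {n : ℕ | N < n ∧ n ≤ 2 * N ∧ ε * L < |(count s S n a : ℝ) - δ 0 * L|} =
      (((Ioc N (2 * N)).filter (fun n => ε * L < |D n|) : Finset ℕ) : Set ℕ) := by
    ext n
    simp only [Set.mem_ofPred_eq, coe_filter, Finset.mem_Ioc, and_assoc, hD, count_eq, hg]
  rw [h4, Set.ncard_coe_finset]
  set F := (Ioc N (2 * N)).filter (fun n => ε * L < |D n|) with hF
  have h5 : (F.card : ℝ) * (ε * L) ≤ 2 * η * N * L := by
    refine le_trans ?_ h3
    calc (F.card : ℝ) * (ε * L) = ∑ _n ∈ F, ε * L := by rw [sum_const, nsmul_eq_mul]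
      _ ≤ ∑ n ∈ F, |D n| := by
          apply sum_le_sum; intro n hn
          rw [hF, mem_filter] at hn
          exact hn.2.le
      _ ≤ _ := sum_le_sum_of_subset_of_nonneg (filter_subset _ _) (fun _ _ _ => abs_nonneg _)
  have h6 : (F.card : ℝ) * (ε * L) ≤ (ε * N) * (ε * L) := by
    refine h5.trans (le_of_eq ?_)
    rw [hη]; ring
  exact le_of_mul_le_mul_right h6 (by positivity)

theorem poly_spread (P : Polynomial ℤ) (hP : 1 ≤ P.natDegree) : ∃ t₀ : ℕ, ∃ K : ℝ, 0 < K ∧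
    ∀ t : ℕ, t₀ ≤ t → ∀ B L N : ℕ, 1 ≤ N → N ≤ B * L ^ P.natDegree →
      Spread t (K * B) N (vals P L) := by
  obtain ⟨t₀, K, hK, H⟩ := poly_energy P hP 1 le_rfl
  refine ⟨t₀, K, hK, fun t ht B L N hN hNL => ?_⟩
  have hB : 1 ≤ B := by
    rcases Nat.eq_zero_or_pos B with h0 | h0
    · rw [h0, Nat.zero_mul] at hNL; omega
    · exact h0
  have hL : 1 ≤ L := by
    rcases Nat.eq_zero_or_pos L with h0 | h0
    · rw [h0, zero_pow (by omega), Nat.mul_zero] at hNL; omega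
    · exact h0
  have hN0 : (0 : ℝ) < N := by exact_mod_cast hN
  set N' : ℕ := (N + B - 1) / B with hN'
  have h1 : 1 ≤ N' := (Nat.le_div_iff_mul_le (by omega)).2 (by omega)
  have h2 : N ≤ B * N' := by
    have := Nat.lt_mul_div_succ (N + B - 1) (by omega : 0 < B)
    rw [← hN'] at this
    have e : B * (N' + 1) = B * N' + B := by ring
    omega
  have h3 : N' ≤ 1 * L ^ P.natDegree := by
    rw [one_mul, hN']
    apply Nat.le_of_lt_succ
    rw [Nat.div_lt_iff_lt_mul (by omega)]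
    have e : (L ^ P.natDegree).succ * B = B * L ^ P.natDegree + B := by rw [Nat.succ_mul]; ring
    rw [e]
    omega
  have h4 := H t ht L N' hL h1 h3
  unfold Spread
  rw [energy_eq, le_div_iff₀ hN0]
  have h5 : (N : ℝ) ≤ B * N' := by exact_mod_cast h2
  unfold vals
  calc (en t (fun m : Fin L => P.eval (((m : ℕ) + 1 : ℕ) : ℤ)) : ℝ) * N
      ≤ (en t (fun m : Fin L => P.eval (((m : ℕ) + 1 : ℕ) : ℤ)) : ℝ) * (B * N') :=
        mul_le_mul_of_nonneg_left h5 (Nat.cast_nonneg _)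
    _ = ((en t (fun m : Fin L => P.eval (((m : ℕ) + 1 : ℕ) : ℤ)) : ℝ) * N') * B := by ring
    _ ≤ (K * (L : ℝ) ^ (2 * t)) * B := mul_le_mul_of_nonneg_right h4 (Nat.cast_nonneg _)
    _ = _ := by ring

theorem polynomials (F : Finset (Polynomial ℤ)) (hF : ∀ P ∈ F, 1 ≤ P.natDegree) : ∃ r₀ : ℕ, ∀ r : ℕ, r₀ ≤ r →
    ∀ s : ℤ, (s = 1 ∨ s = -1) → ∀ (B : ℕ) (ε : ℝ), 0 < ε → ∃ N₀ : ℕ, ∀ S : Set ℤ, Invariant S →
    ∃ δ : ℝ, HasDensity s S δ ∧ ∀ N : ℕ, N₀ ≤ N → ∀ P : Fin r → Polynomial ℤ, (∀ j, P j ∈ F) →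
    ∀ L : Fin r → ℕ, (∀ j, ∀ m : ℕ, 1 ≤ m → m ≤ L j → |(P j).eval (m : ℤ)| ≤ N) →
    (∀ j, N ≤ B * L j ^ (P j).natDegree) → ∀ n : ℤ, |n| ≤ B * N →
      |(reps s S n (fun j => vals (P j) (L j)) : ℝ) - δ * reps s Set.univ n (fun j => vals (P j) (L j))| ≤
        ε * ∏ j, (L j : ℝ) := by
  classical
  choose! t₀ K hK H using fun (P : Polynomial ℤ) (hP : P ∈ F) => poly_spread P (hF P hP)
  set t : ℕ := ∑ P ∈ F, t₀ P + 1 with ht
  refine ⟨2 * t, fun r hr s hs B ε hε => ?_⟩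
  obtain ⟨N₀, hN₀⟩ := general hs r t B (by omega) (∑ P ∈ F, K P * B) hε
  refine ⟨N₀ + 1, fun S hS => ?_⟩
  obtain ⟨δ, hδ, h⟩ := hN₀ S hS
  refine ⟨δ, hδ, fun N hN P hP L hL hNL n hn => ?_⟩
  apply h N (by omega) L _ (fun j i => hL j _ (by omega) (by have := i.2; omega)) univ
    (by rw [card_univ, Fintype.card_fin]; exact hr) _ n hn
  intro j _
  have h1 : t₀ (P j) ≤ t := by
    have := single_le_sum (f := t₀) (fun _ _ => Nat.zero_le _) (hP j)
    omega
  have h2 := H (P j) (hP j) t h1 B (L j) N (by omega) (hNL j)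
  unfold Spread at h2 ⊢
  refine h2.trans ?_
  apply div_le_div_of_nonneg_right _ (Nat.cast_nonneg _)
  apply mul_le_mul_of_nonneg_right _ (by positivity)
  exact single_le_sum (f := fun P => K P * B) (fun P hP => mul_nonneg (hK P hP).le (Nat.cast_nonneg _)) (hP j)

/-- a bound for the values -/
theorem eval_bound (P : Polynomial ℤ) : ∃ c : ℕ, 1 ≤ c ∧ ∀ m : ℕ, 1 ≤ m →
    |P.eval (m : ℤ)| ≤ c * (m : ℤ) ^ P.natDegree := by
  refine ⟨∑ i ∈ range (P.natDegree + 1), (P.coeff i).natAbs + 1, by omega, fun m hm => ?_⟩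
  rw [Polynomial.eval_eq_sum_range]
  refine (abs_sum_le_sum_abs _ _).trans ?_
  have hm1 : (1 : ℤ) ≤ m := by exact_mod_cast hm
  calc ∑ i ∈ range (P.natDegree + 1), |P.coeff i * (m : ℤ) ^ i|
      ≤ ∑ i ∈ range (P.natDegree + 1), ((P.coeff i).natAbs : ℤ) * (m : ℤ) ^ P.natDegree := by
        apply sum_le_sum; intro i hi
        rw [Finset.mem_range] at hi
        rw [abs_mul, abs_of_nonneg (by positivity : (0 : ℤ) ≤ (m : ℤ) ^ i), Int.natCast_natAbs]
        exact mul_le_mul_of_nonneg_left (pow_le_pow_right₀ hm1 (by omega)) (abs_nonneg _)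
    _ = (∑ i ∈ range (P.natDegree + 1), ((P.coeff i).natAbs : ℤ)) * (m : ℤ) ^ P.natDegree := by rw [sum_mul]
    _ ≤ _ := by
        apply mul_le_mul_of_nonneg_right _ (by positivity)
        push_cast
        linarith

theorem small_values_finite (P : Polynomial ℤ) (hP : 1 ≤ P.natDegree) (n : ℕ) :
    {m : ℕ | |P.eval (m : ℤ)| ≤ n}.Finite := by
  have h1 : ∀ y : ℤ, {m : ℤ | P.eval m = y}.Finite := by
    intro y
    have h2 : P - Polynomial.C y ≠ 0 := by
      intro h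
      have h3 : P = Polynomial.C y := sub_eq_zero.1 h
      rw [h3, Polynomial.natDegree_C] at hP
      omega
    have h3 := Polynomial.finite_setOfPred_isRoot h2
    refine h3.subset ?_
    intro m hm
    simp only [Set.mem_ofPred_eq, Polynomial.IsRoot.def, Polynomial.eval_sub, Polynomial.eval_C] at hm ⊢
    rw [hm, sub_self]
  have h2 : (⋃ y ∈ Set.Icc (-(n : ℤ)) n, {m : ℤ | P.eval m = y}).Finite :=
    (Set.finite_Icc _ _).biUnion fun y _ => h1 y
  refine (h2.preimage (f := fun m : ℕ => (m : ℤ)) (Nat.cast_injective.injOn)).subset ?_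
  intro m hm
  simp only [Set.mem_preimage, Set.mem_iUnion, Set.mem_ofPred_eq, exists_prop, exists_eq_right', Set.mem_Icc]
  simp only [Set.mem_ofPred_eq] at hm
  exact abs_le.1 hm

theorem polyReps_finite (s : ℤ) (S : Set ℤ) (n : ℕ) (P : Polynomial ℤ) (hP : 1 ≤ P.natDegree) (r : ℕ) :
    {m : Fin r → ℕ | (∀ j, 1 ≤ m j ∧ |P.eval (m j : ℤ)| ≤ n) ∧ 0 < (n : ℤ) - ∑ j, P.eval (m j : ℤ) ∧
      s * ((n : ℤ) - ∑ j, P.eval (m j : ℤ)) ∈ S}.Finite := by
  have h1 : (Set.univ.pi (fun _ : Fin r => {m : ℕ | |P.eval (m : ℤ)| ≤ n})).Finite :=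
    Set.Finite.pi fun _ => small_values_finite P hP n
  refine h1.subset ?_
  rintro m ⟨hm, -, -⟩ j _
  exact (hm j).2

/-- every large integer -/
theorem every {P : Polynomial ℤ} (hP : 1 ≤ P.natDegree) : ∃ r₀ : ℕ, 1 ≤ r₀ ∧ ∀ r : ℕ, r₀ ≤ r →
    ∀ s : ℤ, (s = 1 ∨ s = -1) → ∀ S : Set ℤ, Invariant S → (∃ x ∈ S, 0 < s * x) → ∃ κ : ℝ, 0 < κ ∧
    ∃ n₀ : ℕ, ∀ n : ℕ, n₀ ≤ n → κ * (n : ℝ) ^ ((r : ℝ) / P.natDegree) ≤ polyReps s S n P r := by
  classical
  obtain ⟨r₀, H⟩ := polynomials {P} (by intro Q hQ; rw [mem_singleton] at hQ; rw [hQ]; exact hP)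
  refine ⟨r₀ + 1, by omega, fun r hr s hs S hS hne => ?_⟩
  obtain ⟨c, hc, hcP⟩ := eval_bound P
  set d := P.natDegree with hd
  set q : ℕ := 2 * r * c with hq
  have hr1 : 1 ≤ r := by omega
  have hq2 : 1 ≤ q := by rw [hq]; exact Nat.mul_pos (by omega) hc
  set B : ℕ := q * 2 ^ d with hB
  have hB1 : 1 ≤ B := Nat.mul_pos hq2 (by positivity)
  have hBR : (0 : ℝ) < B := by exact_mod_cast hB1
  obtain ⟨δ, hδ0, hδ⟩ := Pool.Agent.Results.MP_d02c56_nt.FourierUniformity.dens_pos hs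
    (S := S) (Pool.Agent.Results.MP_edb5be_nt.SparseShifts.inv_C (inv_T hS)) hne
  obtain ⟨N₀, hN₀⟩ := H r (by omega) s hs B (δ / 2) (by positivity)
  obtain ⟨δ', hδ', h⟩ := hN₀ S hS
  have hδδ : δ' = δ := tendsto_nhds_unique hδ' hδ
  subst hδδ
  refine ⟨δ' / 2 * (1 / (B : ℝ)) ^ ((r : ℝ) / d), by positivity, N₀ + q + 1, fun n hn => ?_⟩
  have hnpos : 0 < n := by omega
  -- the length
  set L : ℕ := Nat.findGreatest (fun L => q * L ^ d ≤ n) n with hL
  have hL1 : q * L ^ d ≤ n := by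
    have : (fun L => q * L ^ d ≤ n) 1 := by simp only [one_pow, mul_one]; omega
    exact Nat.findGreatest_spec (P := fun L => q * L ^ d ≤ n) (by omega : 1 ≤ n) this
  have hLge : 1 ≤ L := by
    have : (fun L => q * L ^ d ≤ n) 1 := by simp only [one_pow, mul_one]; omega
    exact Nat.le_findGreatest (by omega : 1 ≤ n) this
  have hL2 : n < q * (L + 1) ^ d := by
    by_contra hcon
    rw [not_lt] at hcon
    have h1 : L + 1 ≤ n := by
      calc L + 1 ≤ (L + 1) ^ d := Nat.le_self_pow (by omega) _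
        _ ≤ q * (L + 1) ^ d := Nat.le_mul_of_pos_left _ hq2
        _ ≤ n := hcon
    have h2 := Nat.le_findGreatest (P := fun L => q * L ^ d ≤ n) h1 hcon
    rw [← hL] at h2
    omega
  have hL3 : n ≤ B * L ^ d := by
    calc n ≤ q * (L + 1) ^ d := hL2.le
      _ ≤ q * (2 * L) ^ d := Nat.mul_le_mul le_rfl (Nat.pow_le_pow_left (by omega) _)
      _ = _ := by rw [hB, mul_pow]; ring
  have hval : ∀ m : ℕ, 1 ≤ m → m ≤ L → 2 * (r : ℤ) * |P.eval (m : ℤ)| ≤ n := by
    intro m hm hmL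
    have h1 := hcP m hm
    have h2 : (c : ℤ) * (m : ℤ) ^ d ≤ c * (L : ℤ) ^ d := by
      apply mul_le_mul_of_nonneg_left _ (by positivity)
      exact pow_le_pow_left₀ (by positivity) (by exact_mod_cast hmL) _
    calc 2 * (r : ℤ) * |P.eval (m : ℤ)| ≤ 2 * (r : ℤ) * (c * (L : ℤ) ^ d) :=
          mul_le_mul_of_nonneg_left (h1.trans h2) (by positivity)
      _ = ((q * L ^ d : ℕ) : ℤ) := by rw [hq]; push_cast; ring
      _ ≤ n := by exact_mod_cast hL1
  have hval1 : ∀ m : ℕ, 1 ≤ m → m ≤ L → |P.eval (m : ℤ)| ≤ n := by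
    intro m hm hmL
    have h1 := hval m hm hmL
    have h2 : (1 : ℤ) ≤ r := by exact_mod_cast hr1
    nlinarith [abs_nonneg (P.eval (m : ℤ))]
  have h1 := h n (by omega) (fun _ => P) (fun _ => mem_singleton_self P) (fun _ => L) (fun _ m hm hmL => hval1 m hm hmL)
    (fun _ => hL3) n (by
      rw [abs_of_nonneg (Nat.cast_nonneg _)]
      exact_mod_cast Nat.le_mul_of_pos_left _ hB1)
  simp only [prod_const, card_univ, Fintype.card_fin] at h1
  -- all choices give positive differences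
  have hpos : ∀ v : Fin r → Fin L, 0 < (n : ℤ) - ∑ j, vals P L (v j) := by
    intro v
    have e1 : 2 * ∑ j, vals P L (v j) ≤ n := by
      have e2 : ∀ j, 2 * (r : ℤ) * vals P L (v j) ≤ n := by
        intro j
        have e3 := hval ((v j : ℕ) + 1) (by omega) (by have := (v j).2; omega)
        have e4 := le_abs_self (P.eval (((v j : ℕ) + 1 : ℕ) : ℤ))
        unfold vals
        nlinarith [e4, (by exact_mod_cast hr1 : (1 : ℤ) ≤ r)]
      have e5 : 2 * (r : ℤ) * ∑ j, vals P L (v j) ≤ r * n := by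
        rw [mul_sum]
        calc _ ≤ ∑ _j : Fin r, (n : ℤ) := sum_le_sum fun j _ => e2 j
          _ = r * n := by simp
      have e6 : (0 : ℤ) < r := by exact_mod_cast hr1
      have e7 : (r : ℤ) * (2 * ∑ j, vals P L (v j)) ≤ r * n := by linarith
      exact le_of_mul_le_mul_left e7 e6
    have : (0 : ℤ) < n := by exact_mod_cast hnpos
    linarith
  have hall : (reps s Set.univ (n : ℤ) (fun _ : Fin r => vals P L) : ℝ) = (L : ℝ) ^ r := by
    unfold reps
    have : {v : ∀ _j : Fin r, Fin L | 0 < (n : ℤ) - ∑ j, vals P L (v j) ∧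
        s * ((n : ℤ) - ∑ j, vals P L (v j)) ∈ Set.univ} = Set.univ := by
      ext v
      simp only [Set.mem_ofPred_eq, Set.mem_univ, and_true, iff_true]
      exact hpos v
    rw [this, Set.ncard_univ, Nat.card_eq_fintype_card, Fintype.card_fun, Fintype.card_fin, Fintype.card_fin]
    push_cast
    rfl
  rw [hall] at h1
  have h2 := (abs_le.1 h1).1
  have h3 : δ' / 2 * (L : ℝ) ^ r ≤ reps s S (n : ℤ) (fun _ : Fin r => vals P L) := by linarith
  have h4 : reps s S (n : ℤ) (fun _ : Fin r => vals P L) ≤ polyReps s S n P r := by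
    unfold reps polyReps
    have hinj : Function.Injective (fun (v : Fin r → Fin L) (j : Fin r) => (v j : ℕ) + 1) := by
      intro v w hvw
      funext j
      have := congrFun hvw j
      simp only [Nat.add_right_cancel_iff] at this
      exact Fin.ext this
    rw [← Set.ncard_image_of_injective _ hinj]
    apply Set.ncard_le_ncard _ (polyReps_finite s S n P hP r)
    rintro m ⟨v, ⟨hv1, hv2⟩, rfl⟩
    exact ⟨fun j => ⟨Nat.le_add_left 1 _, hval1 ((v j : ℕ) + 1) (Nat.le_add_left 1 _) (v j).2⟩, hv1, hv2⟩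
  have h5 : (reps s S (n : ℤ) (fun _ : Fin r => vals P L) : ℝ) ≤ polyReps s S n P r := by exact_mod_cast h4
  refine le_trans ?_ (h3.trans h5)
  rw [mul_assoc]
  apply mul_le_mul_of_nonneg_left _ (by positivity)
  rw [← Real.mul_rpow (by positivity) (Nat.cast_nonneg _)]
  have hd0 : (0 : ℝ) < d := by exact_mod_cast hP
  calc (1 / (B : ℝ) * n) ^ ((r : ℝ) / d) ≤ ((L : ℝ) ^ (d : ℝ)) ^ ((r : ℝ) / d) := by
        apply Real.rpow_le_rpow (by positivity) _ (by positivity)
        rw [Real.rpow_natCast, one_div, inv_mul_le_iff₀ hBR]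
        exact_mod_cast hL3
    _ = (L : ℝ) ^ r := by
        rw [← Real.rpow_mul (Nat.cast_nonneg _), mul_div_cancel₀ _ hd0.ne', Real.rpow_natCast]

theorem powers {k : ℕ} (hk : 1 ≤ k) : ∃ r : ℕ, 1 ≤ r ∧ ∀ s : ℤ, (s = 1 ∨ s = -1) → ∀ S : Set ℤ, Invariant S →
    (∃ x ∈ S, 0 < s * x) → ∃ n₀ : ℕ, ∀ n : ℕ, n₀ ≤ n → ∃ x ∈ S, 0 < s * x ∧ ∃ m : Fin r → ℕ,
      (∀ j, 1 ≤ m j) ∧ (n : ℤ) = |x| + ∑ j, (m j : ℤ) ^ k := by
  have hdeg : (Polynomial.X ^ k : Polynomial ℤ).natDegree = k := Polynomial.natDegree_X_pow k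
  obtain ⟨r, hr, H⟩ := every (P := Polynomial.X ^ k) (by rw [hdeg]; exact hk)
  refine ⟨r, hr, fun s hs S hS hne => ?_⟩
  obtain ⟨κ, hκ, n₀, h⟩ := H r le_rfl s hs S hS hne
  refine ⟨n₀ + 1, fun n hn => ?_⟩
  have h1 := h n (by omega)
  have hn0 : (0 : ℝ) < n := by exact_mod_cast (by omega : 0 < n)
  have h2 : (0 : ℝ) < polyReps s S n (Polynomial.X ^ k) r := lt_of_lt_of_le (by positivity) h1
  have h3 : {m : Fin r → ℕ | (∀ j, 1 ≤ m j ∧ |(Polynomial.X ^ k : Polynomial ℤ).eval (m j : ℤ)| ≤ n) ∧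
      0 < (n : ℤ) - ∑ j, (Polynomial.X ^ k : Polynomial ℤ).eval (m j : ℤ) ∧
      s * ((n : ℤ) - ∑ j, (Polynomial.X ^ k : Polynomial ℤ).eval (m j : ℤ)) ∈ S}.Nonempty := by
    apply Set.nonempty_of_ncard_ne_zero
    intro h0
    unfold polyReps at h2
    rw [h0] at h2
    simp at h2
  obtain ⟨m, hm1, hm2, hm3⟩ := h3
  simp only [Polynomial.eval_pow, Polynomial.eval_X] at hm1 hm2 hm3
  refine ⟨_, hm3, ?_, m, fun j => (hm1 j).1, ?_⟩
  · rcases hs with rfl | rfl
    · linarith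
    · linarith
  · have : |s * ((n : ℤ) - ∑ j, (m j : ℤ) ^ k)| = (n : ℤ) - ∑ j, (m j : ℤ) ^ k := by
      rcases hs with rfl | rfl
      · rw [one_mul, abs_of_pos hm2]
      · rw [neg_one_mul, abs_neg, abs_of_pos hm2]
    rw [this]
    ring

theorem sufficient {P : Polynomial ℤ} {r : ℕ}
    (H : ∀ s : ℤ, (s = 1 ∨ s = -1) → ∀ S : Set ℤ, Invariant S → (∃ x ∈ S, 0 < s * x) → ∃ κ : ℝ, 0 < κ ∧
    ∃ n₀ : ℕ, ∀ n : ℕ, n₀ ≤ n → κ * (n : ℝ) ^ ((r : ℝ) / P.natDegree) ≤ polyReps s S n P r)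
    {s : ℤ} (hs : s = 1 ∨ s = -1) {ψ : ℕ → ℝ} (hψ : Tendsto ψ atTop (𝓝 0)) {U : Set ℤ} (hU : Invariant U)
    (h : ∃ᶠ n : ℕ in atTop, (polyReps s U n P r : ℝ) ≤ ψ n * (n : ℝ) ^ ((r : ℝ) / P.natDegree)) :
    ∀ x : ℤ, 0 < s * x → x ∉ U := by
  intro x hx hxU
  obtain ⟨κ, hκ, n₀, h1⟩ := H s hs U hU ⟨x, hxU, hx⟩
  have h2 : ∀ᶠ n : ℕ in atTop, ψ n < κ := (tendsto_order.1 hψ).2 κ hκ
  obtain ⟨n, h3, h4, h5⟩ := (h.and_eventually (h2.and (eventually_ge_atTop (n₀ + 1)))).exists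
  have h6 := h1 n (by omega)
  have hn0 : (0 : ℝ) < n := by exact_mod_cast (by omega : 0 < n)
  have h7 : ψ n * (n : ℝ) ^ ((r : ℝ) / P.natDegree) < κ * (n : ℝ) ^ ((r : ℝ) / P.natDegree) :=
    mul_lt_mul_of_pos_right h4 (by positivity)
  linarith

theorem sufficient_one {P : Polynomial ℤ} (hP : 1 ≤ P.natDegree) {s : ℤ} (hs : s = 1 ∨ s = -1) {B : ℕ} {κ : ℝ}
    (hκ : 0 < κ) {ψ : ℕ → ℝ} (hψ : Tendsto ψ atTop (𝓝 0)) {U : Set ℤ} (hU : Invariant U)
    (h : ∃ᶠ N : ℕ in atTop, ∃ L : ℕ, (∀ m : ℕ, 1 ≤ m → m ≤ L → |P.eval (m : ℤ)| ≤ N) ∧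
      N ≤ B * L ^ P.natDegree ∧
      κ * N ≤ ({n : ℕ | N < n ∧ n ≤ 2 * N ∧ (count s U n (vals P L) : ℝ) ≤ ψ N * L}.ncard : ℝ)) :
    ∀ x : ℤ, 0 < s * x → x ∉ U := by
  intro x hx hxU
  obtain ⟨t₀, K, hK, H⟩ := poly_spread P hP
  obtain ⟨δ, hδ0, hδ⟩ := Pool.Agent.Results.MP_d02c56_nt.FourierUniformity.dens_pos hs
    (S := U) (Pool.Agent.Results.MP_edb5be_nt.SparseShifts.inv_C (inv_T hU)) ⟨x, hxU, hx⟩
  set ε : ℝ := min (κ / 2) (δ / 2) with hε
  have hε0 : 0 < ε := by rw [hε]; positivity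
  obtain ⟨N₀, hN₀⟩ := almost_all hs t₀ (K * B) hε0
  obtain ⟨δ', hδ', h1⟩ := hN₀ U hU
  have hδδ : δ' = δ := tendsto_nhds_unique hδ' hδ
  subst hδδ
  have h2 : ∀ᶠ n : ℕ in atTop, ψ n < δ' / 2 := (tendsto_order.1 hψ).2 _ (by positivity)
  obtain ⟨N, ⟨L, hL, hNL, hcard⟩, hψN, hN⟩ := (h.and_eventually (h2.and (eventually_ge_atTop (N₀ + 1)))).exists
  have hN0 : (0 : ℝ) < N := by exact_mod_cast (by omega : 0 < N)
  have hL1 : 1 ≤ L := by
    rcases Nat.eq_zero_or_pos L with h0 | h0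
    · rw [h0, zero_pow (by omega), Nat.mul_zero] at hNL; omega
    · exact h0
  have hL0 : (0 : ℝ) < L := by exact_mod_cast hL1
  have h3 := h1 N (by omega) L (vals P L) (fun i => hL _ (by omega) (by have := i.2; omega))
    (H t₀ le_rfl B L N (by omega) hNL)
  have hfin : {n : ℕ | N < n ∧ n ≤ 2 * N ∧ ε * L < |(count s U n (vals P L) : ℝ) - δ' * L|}.Finite := by
    apply (Set.finite_Icc N (2 * N)).subset
    rintro n ⟨a1, a2, -⟩
    exact ⟨a1.le, a2⟩
  have h4 : {n : ℕ | N < n ∧ n ≤ 2 * N ∧ (count s U n (vals P L) : ℝ) ≤ ψ N * L} ⊆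
      {n : ℕ | N < n ∧ n ≤ 2 * N ∧ ε * L < |(count s U n (vals P L) : ℝ) - δ' * L|} := by
    rintro n ⟨a1, a2, a3⟩
    refine ⟨a1, a2, ?_⟩
    have e1 : ψ N * L < δ' / 2 * L := mul_lt_mul_of_pos_right hψN hL0
    have e2 : ε * L ≤ δ' / 2 * L := mul_le_mul_of_nonneg_right (min_le_right _ _) hL0.le
    rw [abs_sub_comm]
    refine lt_of_lt_of_le ?_ (le_abs_self _)
    linarith
  have h5 := Set.ncard_le_ncard h4 hfin
  have h6 : ({n : ℕ | N < n ∧ n ≤ 2 * N ∧ (count s U n (vals P L) : ℝ) ≤ ψ N * L}.ncard : ℝ) ≤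
      ({n : ℕ | N < n ∧ n ≤ 2 * N ∧ ε * L < |(count s U n (vals P L) : ℝ) - δ' * L|}.ncard : ℝ) := by
    exact_mod_cast h5
  have h7 : ε * N ≤ κ / 2 * N := mul_le_mul_of_nonneg_right (min_le_left _ _) hN0.le
  have h8 : 0 < κ * N := by positivity
  linarith

theorem all_reach (h : ∀ s : ℤ, (s = 1 ∨ s = -1) → ∀ x : ℤ, 0 < s * x → x ∉ {x | ¬ Reaches x}) (x : ℤ) :
    Reaches x := by
  rcases lt_trichotomy x 0 with hx | hx | hx
  · have := h (-1) (Or.inr rfl) x (by omega)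
    simpa using this
  · rw [hx]; exact ⟨0, by decide⟩
  · have := h 1 (Or.inl rfl) x (by omega)
    simpa using this

/-- (1) Let `s` be a sign. For all `r`, `t ≥ 1`, `B`, `K` and `ε > 0` there is `N₀` such that every
invariant set `S` has among the integers of sign `s` a density `δ`, and for all `N ≥ N₀`, all `r`
families of integers of absolute value at most `N`, at least `2 t` of which have energy at most
`K L ^ (2 t) / N`, and EVERY integer `n` with `|n| ≤ B N`, the number of the representations of `n` as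
a sum of `|x|`, where `x ∈ S` has sign `s`, and of one member of each family is `δ` times the number of
such representations with an arbitrary `x` of sign `s`, up to `ε` times the number of all choices.
(2) For every finite set of nonconstant integer polynomials there is `r₀` such that this holds for
the values of any `r ≥ r₀` of these polynomials `P j` at `1, ..., L j`, if these are at most `N` in
size and `N ≤ B (L j) ^ deg (P j)`.
(3) For every `k ≥ 1` there is `r` such that every large integer is the sum of `|x|`, for an `x ∈ S` of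
sign `s`, and of `r` positive `k`-th powers, if `S` contains an integer of sign `s`.
(4) For one family of bounded energy, for all but `ε N` of the `n` in `(N, 2 N]` the number of the
members `a i` such that `s (n - a i)` is in `S` is `δ L` up to `ε L`, uniformly; so for the
values of a nonconstant polynomial at `1, ..., L` as in (2).
(5) For every nonconstant integer polynomial `P` and every `r ≥ r₀ (P)`: if `S` contains an integer of
sign `s`, then for every large `n` at least `κ n ^ (r / deg P)` tuples of positive integers `m j` are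
such that `n` is a sum of `|x|`, for an `x ∈ S` of sign `s`, and of the `P (m j)`. All trajectories of
integers reach the known cycles if for infinitely many `n` only `o(n ^ (r / deg P))` of the tuples lead
to an integer `x` whose trajectory does not reach them, for both signs.
(6) All trajectories reach the known cycles if for infinitely many `N` and a positive proportion
of the `n` in `(N, 2 N]` only `o(L)` of the integers `s (n - P m)`, `1 ≤ m ≤ L`, do not reach them. -/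
theorem result :
    (∀ s : ℤ, (s = 1 ∨ s = -1) → ∀ (r t B : ℕ), 1 ≤ t → ∀ K ε : ℝ, 0 < ε →
      ∃ N₀ : ℕ, ∀ S : Set ℤ, Invariant S → ∃ δ : ℝ, HasDensity s S δ ∧
      ∀ N : ℕ, N₀ ≤ N → ∀ (L : Fin r → ℕ) (a : ∀ j, Fin (L j) → ℤ), (∀ j i, |a j i| ≤ N) →
      ∀ J : Finset (Fin r), 2 * t ≤ J.card → (∀ j ∈ J, Spread t K N (a j)) →
      ∀ n : ℤ, |n| ≤ B * N →
        |(reps s S n a : ℝ) - δ * reps s Set.univ n a| ≤ ε * ∏ j, (L j : ℝ)) ∧
    (∀ F : Finset (Polynomial ℤ), (∀ P ∈ F, 1 ≤ P.natDegree) → ∃ r₀ : ℕ, ∀ r : ℕ, r₀ ≤ r →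
      ∀ s : ℤ, (s = 1 ∨ s = -1) → ∀ (B : ℕ) (ε : ℝ), 0 < ε → ∃ N₀ : ℕ, ∀ S : Set ℤ, Invariant S →
      ∃ δ : ℝ, HasDensity s S δ ∧ ∀ N : ℕ, N₀ ≤ N → ∀ P : Fin r → Polynomial ℤ, (∀ j, P j ∈ F) →
      ∀ L : Fin r → ℕ, (∀ j, ∀ m : ℕ, 1 ≤ m → m ≤ L j → |(P j).eval (m : ℤ)| ≤ N) →
      (∀ j, N ≤ B * L j ^ (P j).natDegree) → ∀ n : ℤ, |n| ≤ B * N →
        |(reps s S n (fun j => vals (P j) (L j)) : ℝ) -
          δ * reps s Set.univ n (fun j => vals (P j) (L j))| ≤ ε * ∏ j, (L j : ℝ)) ∧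
    (∀ k : ℕ, 1 ≤ k → ∃ r : ℕ, 1 ≤ r ∧ ∀ s : ℤ, (s = 1 ∨ s = -1) → ∀ S : Set ℤ, Invariant S →
      (∃ x ∈ S, 0 < s * x) → ∃ n₀ : ℕ, ∀ n : ℕ, n₀ ≤ n → ∃ x ∈ S, 0 < s * x ∧ ∃ m : Fin r → ℕ,
        (∀ j, 1 ≤ m j) ∧ (n : ℤ) = |x| + ∑ j, (m j : ℤ) ^ k) ∧
    (∀ s : ℤ, (s = 1 ∨ s = -1) →
      (∀ (t : ℕ) (K ε : ℝ), 0 < ε → ∃ N₀ : ℕ, ∀ S : Set ℤ, Invariant S → ∃ δ : ℝ, HasDensity s S δ ∧
        ∀ N : ℕ, N₀ ≤ N → ∀ (L : ℕ) (a : Fin L → ℤ), (∀ i, |a i| ≤ N) → Spread t K N a →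
          ({n : ℕ | N < n ∧ n ≤ 2 * N ∧ ε * L < |(count s S n a : ℝ) - δ * L|}.ncard : ℝ) ≤ ε * N) ∧
      (∀ P : Polynomial ℤ, 1 ≤ P.natDegree → ∃ t : ℕ, ∃ K : ℝ, ∀ B L N : ℕ, 1 ≤ N →
        N ≤ B * L ^ P.natDegree → Spread t (K * B) N (vals P L))) ∧
    (∀ P : Polynomial ℤ, 1 ≤ P.natDegree → ∃ r₀ : ℕ, ∀ r : ℕ, r₀ ≤ r →
      (∀ s : ℤ, (s = 1 ∨ s = -1) → ∀ S : Set ℤ, Invariant S → (∃ x ∈ S, 0 < s * x) → ∃ κ : ℝ, 0 < κ ∧
        ∃ n₀ : ℕ, ∀ n : ℕ, n₀ ≤ n → κ * (n : ℝ) ^ ((r : ℝ) / P.natDegree) ≤ polyReps s S n P r) ∧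
      (∀ ψ : ℕ → ℝ, Tendsto ψ atTop (𝓝 0) →
        (∀ s : ℤ, (s = 1 ∨ s = -1) → ∃ᶠ n : ℕ in atTop,
          (polyReps s {x | ¬ Reaches x} n P r : ℝ) ≤ ψ n * (n : ℝ) ^ ((r : ℝ) / P.natDegree)) →
        ∀ x : ℤ, Reaches x)) ∧
    (∀ (P : Polynomial ℤ) (B : ℕ) (κ : ℝ) (ψ : ℕ → ℝ), 1 ≤ P.natDegree → 0 < κ →
      Tendsto ψ atTop (𝓝 0) →
      (∀ s : ℤ, (s = 1 ∨ s = -1) → ∃ᶠ N : ℕ in atTop, ∃ L : ℕ,
        (∀ m : ℕ, 1 ≤ m → m ≤ L → |P.eval (m : ℤ)| ≤ N) ∧ N ≤ B * L ^ P.natDegree ∧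
        κ * N ≤ ({n : ℕ | N < n ∧ n ≤ 2 * N ∧
          (count s {x | ¬ Reaches x} n (vals P L) : ℝ) ≤ ψ N * L}.ncard : ℝ)) →
      ∀ x : ℤ, Reaches x) := by
  refine ⟨fun s hs r t B ht K ε hε => general hs r t B ht K hε, fun F hF => polynomials F hF,
    fun k hk => powers hk, fun s hs => ⟨fun t K ε hε => almost_all hs t K hε, fun P hP => ?_⟩,
    fun P hP => ?_, fun P B κ ψ hP hκ hψ h => all_reach fun s hs => sufficient_one hP hs hκ hψ unreaches_inv (h s hs)⟩
  · obtain ⟨t₀, K, -, H⟩ := poly_spread P hP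
    exact ⟨t₀, K, fun B L N hN hNL => H t₀ le_rfl B L N hN hNL⟩
  · obtain ⟨r₀, -, H⟩ := every hP
    refine ⟨r₀, fun r hr => ⟨H r hr, fun ψ hψ h => ?_⟩⟩
    exact all_reach fun s hs => sufficient (H r hr) hs hψ unreaches_inv (h s hs)

end Pool.Agent.Results.MP_d02c56_nt.WaringProblem
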