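import Pool.Agent.Q49.AF.Thr

set_option autoImplicit false

/-!
The sets invariant under the Collatz map are equidistributed with respect to all real additive
functions.

For arbitrary real additive functions `f_1, ..., f_d` (such as the number of prime factors, the logarithm of
the number of divisors, `log (σ(n) / n)`, or any additive function at all) and arbitrary intervals
`I_1, ..., I_d` the numbers `n ≤ N` with `f_i(n) ∈ I_i` for all `i` contain the elements of an invariant set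
of density `δ` with frequency `δ`, up to `ε N`, uniformly in the set, the functions and the intervals, also
with the weight `g(n) exp (2 π i α n)`, `g` multiplicative. No regularity or limit law is assumed: the
functions may depend on `N`. Hence every limit law for additive functions (Erdős-Wintner, Erdős-Kac,
Kubilius) holds in every invariant set, with the same limit.
-/

namespace Pool.Agent.Results.MP_d02c56_nt.AdditiveFunctions

open Filter Topology

/-- The Collatz map on the integers. -/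
def C (x : ℤ) : ℤ := if x % 2 = 0 then x / 2 else 3 * x + 1

/-- `S` is invariant under the Collatz map and its inverse. -/
def Invariant (S : Set ℤ) : Prop := ∀ x : ℤ, x ∈ S ↔ C x ∈ S

/-- Among the integers of sign `s` the set `S` has natural density `δ`. -/
def HasDensity (s : ℤ) (S : Set ℤ) (δ : ℝ) : Prop :=
  Tendsto (fun N : ℕ => ({n : ℤ | 0 < s * n ∧ s * n ≤ N ∧ n ∈ S}.ncard : ℝ) / N) atTop (𝓝 δ)

/-- `exp (2 π i θ)` -/
noncomputable def e (θ : ℝ) : ℂ := Complex.exp (2 * Real.pi * θ * Complex.I)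

/-- A multiplicative function with values in the closed unit disc. -/
def Multiplicative (g : ℕ → ℂ) : Prop :=
  (∀ n, ‖g n‖ ≤ 1) ∧ ∀ m n : ℕ, Nat.Coprime m n → g (m * n) = g m * g n

/-- A real additive function. -/
def Additive (f : ℕ → ℝ) : Prop := ∀ m n : ℕ, Nat.Coprime m n → f (m * n) = f m + f n

/-- The integers `n` with `f i n ∈ I i` for all `i`. -/
def Box {d : ℕ} (f : Fin d → ℕ → ℝ) (I : Fin d → Set ℝ) : Set ℕ := {n | ∀ i, f i n ∈ I i}

/-- The number of the `n ≤ N` in `E` with `s n ∈ S`. -/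
noncomputable def Count (s : ℤ) (N : ℕ) (S : Set ℤ) (E : Set ℕ) : ℕ :=
  {n : ℕ | 1 ≤ n ∧ n ≤ N ∧ n ∈ E ∧ s * n ∈ S}.ncard

open Pool.Agent.W41 Pool.Agent.H499R2.ND Pool.Agent.H499R2.CO Pool.Agent.W41.FU Pool.Agent.W41.MU

theorem inv_of {S : Set ℤ} (hS : Invariant S) : Inv 1 S := by
  intro x
  have e : Td 1 x = C x ∨ Td 1 x = C (C x) := by
    unfold Td C
    by_cases h : x % 2 = 0
    · left; simp [h]
    · right
      have h2 : (3 * x + 1) % 2 = 0 := by omega
      simp [h, h2]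
  rcases e with h | h
  · rw [h]; exact hS x
  · rw [h]; exact (hS x).trans (hS (C x))

theorem HD_iff {s : ℤ} (hs : s = 1 ∨ s = -1) {S : Set ℤ} (hS : Invariant S) :
    ∃ δ : ℝ, HD s S δ ∧ HasDensity s S δ := by
  obtain ⟨δ, -, -, h⟩ := dens_side (d := 1) odd_one (by norm_num) hs (inv_of hS)
  exact ⟨δ, h, HD_ncard hs h⟩

theorem ind_eq (s : ℤ) (S : Set ℤ) (δ : ℝ) (x : ℤ) : S.indicator (fun _ => (1 : ℝ)) (s * x) - δ = bal s S δ x := by
  unfold bal ind
  by_cases h : s * x ∈ S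
  · rw [Set.indicator_of_mem h, if_pos h]
  · rw [Set.indicator_of_notMem h, if_neg h]

/-- on a finite set every interval condition is given by a closed interval -/
theorem closed_of (f : ℕ → ℝ) {I : Set ℝ} (hI : I.OrdConnected) (N : ℕ) :
    ∃ a b : ℝ, ∀ n ∈ Finset.Icc 1 N, f n ∈ I ↔ a ≤ f n ∧ f n ≤ b := by
  classical
  set V : Finset ℝ := ((Finset.Icc 1 N).image f).filter (fun y => y ∈ I) with hV
  rcases V.eq_empty_or_nonempty with h | h
  · refine ⟨1, 0, fun n hn => ⟨fun hf => ?_, fun hf => ?_⟩⟩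
    · exfalso
      have : f n ∈ V := by
        rw [hV, Finset.mem_filter]; exact ⟨Finset.mem_image_of_mem f hn, hf⟩
      rw [h] at this
      exact Finset.notMem_empty _ this
    · exfalso; linarith [hf.1, hf.2]
  · refine ⟨V.min' h, V.max' h, fun n hn => ⟨fun hf => ?_, fun hf => ?_⟩⟩
    · have : f n ∈ V := by
        rw [hV, Finset.mem_filter]; exact ⟨Finset.mem_image_of_mem f hn, hf⟩
      exact ⟨V.min'_le _ this, V.le_max' _ this⟩
    · have h1 := (Finset.mem_filter.1 (V.min'_mem h)).2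
      have h2 := (Finset.mem_filter.1 (V.max'_mem h)).2
      exact hI.out h1 h2 ⟨hf.1, hf.2⟩

open scoped Classical in
/-- the orthogonality -/
theorem orth {s : ℤ} (hs : s = 1 ∨ s = -1) (d : ℕ) {ε : ℝ} (hε : 0 < ε) :
    ∃ N₀ : ℕ, ∀ S : Set ℤ, Invariant S → ∃ δ : ℝ, HasDensity s S δ ∧
      ∀ N : ℕ, N₀ ≤ N → ∀ g : ℕ → ℂ, Multiplicative g → ∀ α : ℝ, ∀ f : Fin d → ℕ → ℝ, (∀ i, Additive (f i)) →
        ∀ I : Fin d → Set ℝ, (∀ i, (I i).OrdConnected) →
        ‖∑ n ∈ Finset.Icc 1 N, if n ∈ Box f I then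
          ((S.indicator (fun _ => (1 : ℝ)) (s * n) - δ : ℝ) : ℂ) * g n * e (α * n) else 0‖ ≤ ε * N := by
  obtain ⟨N0, hN0, H⟩ := Pool.Agent.Q49.AF.orth_thr hs (show 0 < min ε 1 from lt_min hε one_pos) (min_le_right _ _) (d + d)
  refine ⟨N0, fun S hS => ?_⟩
  obtain ⟨δ, hδ, hδ'⟩ := HD_iff hs hS
  refine ⟨δ, hδ', fun N hN g hg α f hf I hI => ?_⟩
  have hab := fun i => closed_of (f i) (hI i) N
  choose a b hab using hab
  have h1 := H S (inv_of hS) δ hδ N hN (2 * Real.pi * α) g hg (Fin.append f (fun i n => - f i n)) (by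
    intro i
    refine Fin.addCases (fun j => ?_) (fun j => ?_) i
    · rw [Fin.append_left]; exact hf j
    · rw [Fin.append_right]
      intro m n hmn
      simp only
      rw [hf j m n hmn]; ring) (Fin.append b (fun i => - a i))
  have e1 : ∑ n ∈ Finset.Icc 1 N, (if n ∈ Box f I then
      ((S.indicator (fun _ => (1 : ℝ)) (s * n) - δ : ℝ) : ℂ) * g n * e (α * n) else 0)
      = ∑ n ∈ Finset.Icc 1 N, tw (bal s S δ) (2 * Real.pi * α) (n : ℤ) *
        Pool.Agent.Q49.AF.thr g (Fin.append f (fun i n => - f i n)) (Fin.append b (fun i => - a i)) (fun _ => 1) n := by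
    apply Finset.sum_congr rfl
    intro n hn
    have hiff : n ∈ Box f I ↔ ∀ i : Fin (d + d), Fin.append f (fun i n => - f i n) i n ≤ Fin.append b (fun i => - a i) i := by
      constructor
      · intro h i
        refine Fin.addCases (fun j => ?_) (fun j => ?_) i
        · rw [Fin.append_left, Fin.append_left]
          exact ((hab j n hn).1 (h j)).2
        · rw [Fin.append_right, Fin.append_right]
          exact neg_le_neg ((hab j n hn).1 (h j)).1
      · intro h j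
        refine (hab j n hn).2 ⟨?_, ?_⟩
        · have := h (Fin.natAdd d j)
          rw [Fin.append_right, Fin.append_right] at this
          exact neg_le_neg_iff.1 this
        · have := h (Fin.castAdd d j)
          rwa [Fin.append_left, Fin.append_left] at this
    unfold Pool.Agent.Q49.AF.thr
    by_cases h : n ∈ Box f I
    · rw [if_pos h, if_pos (hiff.1 h), ind_eq]
      unfold tw e
      have e2 : (2 * (Real.pi : ℂ) * ((α * n : ℝ) : ℂ) * Complex.I) = ((2 * Real.pi * α * ((n : ℤ) : ℝ) : ℝ) : ℂ) * Complex.I := by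
        push_cast; ring
      rw [e2]
      ring
    · rw [if_neg h, if_neg (fun h' => h (hiff.2 h')), mul_zero]
  rw [e1]
  exact h1.trans (mul_le_mul_of_nonneg_right (min_le_left _ _) (Nat.cast_nonneg _))

theorem count_eq (s : ℤ) (N : ℕ) (S : Set ℤ) (E : Set ℕ) [DecidablePred (· ∈ E)] [DecidablePred (· ∈ S)] :
    (Count s N S E : ℝ) = ∑ n ∈ Finset.Icc 1 N, if n ∈ E then (if s * (n : ℤ) ∈ S then (1 : ℝ) else 0) else 0 := by
  have e1 : {n : ℕ | 1 ≤ n ∧ n ≤ N ∧ n ∈ E ∧ s * n ∈ S} =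
      ((Finset.Icc 1 N).filter (fun n : ℕ => n ∈ E ∧ s * (n : ℤ) ∈ S) : Finset ℕ) := by
    ext n
    simp only [Set.mem_ofPred_eq, Finset.coe_filter, Finset.mem_Icc]
    tauto
  unfold Count
  rw [e1, Set.ncard_coe_finset, Finset.card_filter]
  push_cast
  apply Finset.sum_congr rfl; intro n _
  by_cases h1 : n ∈ E <;> by_cases h2 : s * (n : ℤ) ∈ S <;> simp [h1, h2]

/-- the counting form -/
theorem count {s : ℤ} (hs : s = 1 ∨ s = -1) (d : ℕ) {ε : ℝ} (hε : 0 < ε) :
    ∃ N₀ : ℕ, ∀ S : Set ℤ, Invariant S → ∃ δ : ℝ, HasDensity s S δ ∧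
      ∀ N : ℕ, N₀ ≤ N → ∀ f : Fin d → ℕ → ℝ, (∀ i, Additive (f i)) →
        ∀ I : Fin d → Set ℝ, (∀ i, (I i).OrdConnected) →
        |(Count s N S (Box f I) : ℝ) - δ * Count s N Set.univ (Box f I)| ≤ ε * N := by
  classical
  obtain ⟨N0, H⟩ := orth hs d hε
  refine ⟨N0, fun S hS => ?_⟩
  obtain ⟨δ, hδ, h⟩ := H S hS
  refine ⟨δ, hδ, fun N hN f hf I hI => ?_⟩
  have h1 := h N hN (fun _ => 1) ⟨fun _ => by simp, fun _ _ _ => by simp⟩ 0 f hf I hI
  have e0 : e 0 = 1 := by unfold e; simp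
  rw [count_eq, count_eq, Finset.mul_sum, ← Finset.sum_sub_distrib, ← Real.norm_eq_abs, ← Complex.norm_real]
  refine le_trans (le_of_eq ?_) h1
  congr 1
  rw [Complex.ofReal_sum]
  apply Finset.sum_congr rfl; intro n _
  simp only [zero_mul, e0, mul_one, Set.mem_univ, if_true]
  by_cases h2 : n ∈ Box f I
  · rw [if_pos h2, if_pos h2, if_pos h2]
    by_cases h3 : s * (n : ℤ) ∈ S
    · rw [Set.indicator_of_mem h3, if_pos h3]; push_cast; ring
    · rw [Set.indicator_of_notMem h3, if_neg h3]; push_cast; ring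
  · rw [if_neg h2, if_neg h2, if_neg h2]; simp

/-- limit laws -/
theorem laws {s : ℤ} (hs : s = 1 ∨ s = -1) {S : Set ℤ} (hS : Invariant S) {δ : ℝ} (hδ : HasDensity s S δ) {d : ℕ}
    {f : ℕ → Fin d → ℕ → ℝ} (hf : ∀ N i, Additive (f N i)) {I : ℕ → Fin d → Set ℝ} (hI : ∀ N i, (I N i).OrdConnected)
    {p : ℝ} (h : Tendsto (fun N : ℕ => (Count s N Set.univ (Box (f N) (I N)) : ℝ) / N) atTop (𝓝 p)) :
    Tendsto (fun N : ℕ => (Count s N S (Box (f N) (I N)) : ℝ) / N) atTop (𝓝 (δ * p)) := by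
  have h0 : Tendsto (fun N : ℕ => (Count s N S (Box (f N) (I N)) : ℝ) / N
      - δ * ((Count s N Set.univ (Box (f N) (I N)) : ℝ) / N)) atTop (𝓝 0) := by
    rw [Metric.tendsto_atTop]
    intro ε hε
    obtain ⟨N0, H⟩ := count hs d (show 0 < ε / 2 by positivity)
    obtain ⟨δ', hδ', H'⟩ := H S hS
    have hdd : δ' = δ := tendsto_nhds_unique hδ' hδ
    rw [hdd] at H'
    refine ⟨N0 + 1, fun N hN => ?_⟩
    have hN0 : (0 : ℝ) < N := by exact_mod_cast (by omega : 0 < N)
    have h1 := H' N (by omega) (f N) (hf N) (I N) (hI N)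
    rw [Real.dist_eq, sub_zero]
    have e1 : (Count s N S (Box (f N) (I N)) : ℝ) / N - δ * ((Count s N Set.univ (Box (f N) (I N)) : ℝ) / N)
        = ((Count s N S (Box (f N) (I N)) : ℝ) - δ * Count s N Set.univ (Box (f N) (I N))) / N := by ring
    rw [e1, abs_div, abs_of_pos hN0, div_lt_iff₀ hN0]
    nlinarith
  have h1 := h0.add (h.const_mul δ)
  rw [zero_add] at h1
  refine h1.congr fun N => ?_
  ring

/-- sufficient sets -/
theorem sufficient {s : ℤ} (hs : s = 1 ∨ s = -1) {S : Set ℤ} (hS : Invariant S) {d : ℕ}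
    {f : ℕ → Fin d → ℕ → ℝ} (hf : ∀ N i, Additive (f N i)) {I : ℕ → Fin d → Set ℝ} (hI : ∀ N i, (I N i).OrdConnected)
    {κ : ℝ} (hκ : 0 < κ) {ψ : ℕ → ℝ} (hψ : Tendsto ψ atTop (𝓝 0))
    (h : ∃ᶠ N : ℕ in atTop, κ * N ≤ Count s N Set.univ (Box (f N) (I N)) ∧
      (Count s N Sᶜ (Box (f N) (I N)) : ℝ) ≤ ψ N * N) :
    ∀ x : ℤ, 0 < s * x → x ∈ S := by
  intro x hx
  by_contra hcon
  have hSc : Invariant Sᶜ := fun x => not_congr (hS x)
  obtain ⟨δ, hδ, hδ'⟩ := HD_iff hs hSc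
  have hδ0 : 0 < δ := one_pos hs (inv_of hSc) hcon hx hδ
  obtain ⟨N0, hN0⟩ := count hs d (show 0 < δ * κ / 2 by positivity)
  obtain ⟨δ₁, hd1, H⟩ := hN0 Sᶜ hSc
  have hdd : δ₁ = δ := tendsto_nhds_unique hd1 hδ'
  rw [hdd] at H
  have h1 : ∀ᶠ N : ℕ in atTop, ψ N < δ * κ / 2 := (tendsto_order.1 hψ).2 _ (by positivity)
  obtain ⟨N, ⟨h2, h3⟩, h4, h5⟩ := (h.and_eventually (h1.and (eventually_ge_atTop (N0 + 1)))).exists
  have h6 := (abs_le.1 (H N (by omega) (f N) (hf N) (I N) (hI N))).1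
  have hNp : (0 : ℝ) < N := by exact_mod_cast (by omega : 0 < N)
  have h7 : ψ N * N < δ * κ / 2 * N := mul_lt_mul_of_pos_right h4 hNp
  have h8 : δ * (κ * N) ≤ δ * Count s N Set.univ (Box (f N) (I N)) := mul_le_mul_of_nonneg_left h2 hδ0.le
  linarith

open scoped Classical in
/-- THE SETS INVARIANT UNDER THE COLLATZ MAP AND ADDITIVE FUNCTIONS. Let `s` be a sign. (1) For all `d` and
`ε > 0`, if `N` is large, then for every invariant set `S` of integers, of density `δ` among the integers of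
sign `s` (the density exists), all real additive functions `f 1, ..., f d`, all intervals `I 1, ..., I d`,
every multiplicative function `g` with values in the unit disc and every real `α` the sum of
`(1_S(s n) - δ) g(n) exp (2 π i α n)` over the `n ≤ N` with `f i n ∈ I i` for all `i` is at most `ε N` in
absolute value; so the number of the `n ≤ N` with `s n ∈ S` and `f i n ∈ I i` for all `i` is `δ` times
the number of the `n ≤ N` with `f i n ∈ I i` for all `i`, up to `ε N`. (2) LIMIT LAWS. Let the additive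
functions and the intervals depend on `N` in any way. If the proportion of the `n ≤ N` with `f i n ∈ I i`
for all `i` tends to `p`, then the proportion of the `n ≤ N` with moreover `s n ∈ S` tends to `δ p`.
(3) SUFFICIENT SETS. If, for infinitely many `N`, at least `κ N` of the `n ≤ N` satisfy `f i n ∈ I i` for all
`i` and almost all of these satisfy `s n ∈ S`, then `S` contains all integers of the sign of `s`. -/
theorem result (s : ℤ) (hs : s = 1 ∨ s = -1) :
    (∀ (d : ℕ) (ε : ℝ), 0 < ε → ∃ N₀ : ℕ, ∀ S : Set ℤ, Invariant S → ∃ δ : ℝ, HasDensity s S δ ∧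
      ∀ N : ℕ, N₀ ≤ N → ∀ f : Fin d → ℕ → ℝ, (∀ i, Additive (f i)) →
        ∀ I : Fin d → Set ℝ, (∀ i, (I i).OrdConnected) →
        (∀ g : ℕ → ℂ, Multiplicative g → ∀ α : ℝ,
          ‖∑ n ∈ Finset.Icc 1 N, if n ∈ Box f I then
            ((S.indicator (fun _ => (1 : ℝ)) (s * n) - δ : ℝ) : ℂ) * g n * e (α * n) else 0‖ ≤ ε * N) ∧
        |(Count s N S (Box f I) : ℝ) - δ * Count s N Set.univ (Box f I)| ≤ ε * N) ∧
    (∀ S : Set ℤ, Invariant S → ∀ δ : ℝ, HasDensity s S δ → ∀ (d : ℕ) (f : ℕ → Fin d → ℕ → ℝ),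
      (∀ N i, Additive (f N i)) → ∀ I : ℕ → Fin d → Set ℝ, (∀ N i, (I N i).OrdConnected) → ∀ p : ℝ,
      Tendsto (fun N : ℕ => (Count s N Set.univ (Box (f N) (I N)) : ℝ) / N) atTop (𝓝 p) →
      Tendsto (fun N : ℕ => (Count s N S (Box (f N) (I N)) : ℝ) / N) atTop (𝓝 (δ * p))) ∧
    (∀ S : Set ℤ, Invariant S → ∀ (d : ℕ) (f : ℕ → Fin d → ℕ → ℝ),
      (∀ N i, Additive (f N i)) → ∀ I : ℕ → Fin d → Set ℝ, (∀ N i, (I N i).OrdConnected) →
      ∀ (κ : ℝ) (ψ : ℕ → ℝ), 0 < κ → Tendsto ψ atTop (𝓝 0) →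
      (∃ᶠ N : ℕ in atTop, κ * N ≤ Count s N Set.univ (Box (f N) (I N)) ∧
        (Count s N Sᶜ (Box (f N) (I N)) : ℝ) ≤ ψ N * N) → ∀ x : ℤ, 0 < s * x → x ∈ S) := by
  refine ⟨fun d ε hε => ?_, fun S hS δ hδ d f hf I hI p hp => laws hs hS hδ hf hI hp,
    fun S hS d f hf I hI κ ψ hκ hψ h => sufficient hs hS hf hI hκ hψ h⟩
  obtain ⟨N1, H1⟩ := orth hs d hε
  obtain ⟨N2, H2⟩ := count hs d hε
  refine ⟨max N1 N2, fun S hS => ?_⟩
  obtain ⟨δ, hδ, h1⟩ := H1 S hS
  obtain ⟨δ', hδ', h2⟩ := H2 S hS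
  have hdd : δ' = δ := tendsto_nhds_unique hδ' hδ
  rw [hdd] at h2
  exact ⟨δ, hδ, fun N hN f hf I hI =>
    ⟨fun g hg α => h1 N ((le_max_left _ _).trans hN) g hg α f hf I hI, h2 N ((le_max_right _ _).trans hN) f hf I hI⟩⟩

end Pool.Agent.Results.MP_d02c56_nt.AdditiveFunctions
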