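import Pool.Agent.Q49.AF.Lev

set_option autoImplicit false

/-!
The sets invariant under the Collatz map are equidistributed among the level sets of the number of prime
factors, and of all additive functions with few values at the primes.

Let `f` be an additive function with values in any commutative monoid, with at most `r` different values at
the primes: the number `ω(n)` or `Ω(n)` of prime factors of `n`, or the vector of the numbers of prime factors
in `k` arbitrary sets of primes (`r = 2 ^ k`). The indicator function of an invariant set, minus its density, is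
orthogonal to EVERY bounded function of `f(n)`, uniformly. So the integers `n ≤ N` with `f(n) = a` contain the
elements of an invariant set of density `δ` with frequency `δ`, for almost all values `a`: the sum over all `a`
of the errors is at most `ε N`. For example every averaging theorem for sequences along `Ω(n)` (Bergelson and
Richter: `T ^ Ω(n) x` is equidistributed for uniquely ergodic `T`) holds in every invariant set.
-/

namespace Pool.Agent.Results.MP_d02c56_nt.LevelSets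

open Filter Topology

/-- The Collatz map on the integers. -/
def C (x : ℤ) : ℤ := if x % 2 = 0 then x / 2 else 3 * x + 1

/-- `S` is invariant under the Collatz map and its inverse. -/
def Invariant (S : Set ℤ) : Prop := ∀ x : ℤ, x ∈ S ↔ C x ∈ S

/-- Among the integers of sign `s` the set `S` has natural density `δ`. -/
def HasDensity (s : ℤ) (S : Set ℤ) (δ : ℝ) : Prop :=
  Tendsto (fun N : ℕ => ({n : ℤ | 0 < s * n ∧ s * n ≤ N ∧ n ∈ S}.ncard : ℝ) / N) atTop (𝓝 δ)

/-- `exp (2 π i θ)` -/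
noncomputable def e (θ : ℝ) : ℂ := Complex.exp (2 * Real.pi * θ * Complex.I)

/-- A multiplicative function with values in the closed unit disc. -/
def Multiplicative (g : ℕ → ℂ) : Prop :=
  (∀ n, ‖g n‖ ≤ 1) ∧ ∀ m n : ℕ, Nat.Coprime m n → g (m * n) = g m * g n

/-- An additive function with values in a commutative monoid `A`. -/
def Additive {A : Type} [AddCommMonoid A] (f : ℕ → A) : Prop :=
  ∀ m n : ℕ, Nat.Coprime m n → f (m * n) = f m + f n

/-- `f` has at most `r` different values at the primes. -/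
def FewValues {A : Type} (r : ℕ) (f : ℕ → A) : Prop :=
  ∃ V : Finset A, V.card ≤ r ∧ ∀ p : ℕ, p.Prime → f p ∈ V

/-- The number of the `n ≤ N` in `E` with `s n ∈ S`. -/
noncomputable def Count (s : ℤ) (N : ℕ) (S : Set ℤ) (E : Set ℕ) : ℕ :=
  {n : ℕ | 1 ≤ n ∧ n ≤ N ∧ n ∈ E ∧ s * n ∈ S}.ncard

open scoped Classical in
/-- The number of different prime factors in each of the sets `P 1, ..., P k`. -/
noncomputable def omega {k : ℕ} (P : Fin k → Set ℕ) (n : ℕ) : Fin k → ℕ :=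
  fun i => (n.primeFactors.filter (fun p => p ∈ P i)).card

open scoped Classical in
/-- The number of prime factors, with multiplicity, in each of the sets `P 1, ..., P k`. -/
noncomputable def bigOmega {k : ℕ} (P : Fin k → Set ℕ) (n : ℕ) : Fin k → ℕ :=
  fun i => (n.primeFactorsList.filter (fun p => p ∈ P i)).length

open Pool.Agent.W41 Pool.Agent.H499R2.ND Pool.Agent.H499R2.CO Pool.Agent.W41.FU Pool.Agent.W41.MU

theorem inv_of {S : Set ℤ} (hS : Invariant S) : Inv 1 S := by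
  intro x
  have e : Td 1 x = C x ∨ Td 1 x = C (C x) := by
    unfold Td C
    by_cases h : x % 2 = 0
    · left; simp [h]
    · right
      have h2 : (3 * x + 1) % 2 = 0 := by omega
      simp [h, h2]
  rcases e with h | h
  · rw [h]; exact hS x
  · rw [h]; exact (hS x).trans (hS (C x))

theorem HD_iff {s : ℤ} (hs : s = 1 ∨ s = -1) {S : Set ℤ} (hS : Invariant S) :
    ∃ δ : ℝ, HD s S δ ∧ HasDensity s S δ := by
  obtain ⟨δ, -, -, h⟩ := dens_side (d := 1) odd_one (by norm_num) hs (inv_of hS)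
  exact ⟨δ, h, HD_ncard hs h⟩

theorem ind_eq (s : ℤ) (S : Set ℤ) (δ : ℝ) (x : ℤ) : S.indicator (fun _ => (1 : ℝ)) (s * x) - δ = bal s S δ x := by
  unfold bal ind
  by_cases h : s * x ∈ S
  · rw [Set.indicator_of_mem h, if_pos h]
  · rw [Set.indicator_of_notMem h, if_neg h]


theorem orth {s : ℤ} (hs : s = 1 ∨ s = -1) (r : ℕ) {ε : ℝ} (hε : 0 < ε) :
    ∃ N₀ : ℕ, ∀ S : Set ℤ, Invariant S → ∃ δ : ℝ, HasDensity s S δ ∧
      ∀ N : ℕ, N₀ ≤ N → ∀ (A : Type) [AddCommMonoid A] (f : ℕ → A), Additive f → FewValues r f →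
        ∀ Φ : A → ℂ, (∀ a, ‖Φ a‖ ≤ 1) → ∀ g : ℕ → ℂ, Multiplicative g → ∀ α : ℝ,
        ‖∑ n ∈ Finset.Icc 1 N, ((S.indicator (fun _ => (1 : ℝ)) (s * n) - δ : ℝ) : ℂ) * g n * e (α * n) * Φ (f n)‖
          ≤ ε * N := by
  obtain ⟨N0, hN0, H⟩ := Pool.Agent.Q49.AF.orth_lev hs (show 0 < min ε 1 from lt_min hε one_pos) (min_le_right _ _) r
  refine ⟨N0, fun S hS => ?_⟩
  obtain ⟨δ, hδ, hδ'⟩ := HD_iff hs hS
  refine ⟨δ, hδ', fun N hN A _ f hf hfV Φ hΦ g hg α => ?_⟩
  obtain ⟨V, hVr, hV⟩ := hfV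
  have h1 := H S (inv_of hS) δ hδ N hN (2 * Real.pi * α) A g hg f hf V hV hVr Φ hΦ
  have e1 : ∑ n ∈ Finset.Icc 1 N,
      ((S.indicator (fun _ => (1 : ℝ)) (s * n) - δ : ℝ) : ℂ) * g n * e (α * n) * Φ (f n)
      = ∑ n ∈ Finset.Icc 1 N, tw (bal s S δ) (2 * Real.pi * α) (n : ℤ) * (g n * Φ (f n)) := by
    apply Finset.sum_congr rfl
    intro n hn
    rw [ind_eq]
    unfold tw e
    have e2 : (2 * (Real.pi : ℂ) * ((α * n : ℝ) : ℂ) * Complex.I) = ((2 * Real.pi * α * ((n : ℤ) : ℝ) : ℝ) : ℂ) * Complex.I := by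
      push_cast; ring
    rw [e2]
    ring
  rw [e1]
  exact h1.trans (mul_le_mul_of_nonneg_right (min_le_left _ _) (Nat.cast_nonneg _))

theorem count_eq (s : ℤ) (N : ℕ) (S : Set ℤ) (E : Set ℕ) [DecidablePred (· ∈ E)] [DecidablePred (· ∈ S)] :
    (Count s N S E : ℝ) = ∑ n ∈ Finset.Icc 1 N, if n ∈ E then (if s * (n : ℤ) ∈ S then (1 : ℝ) else 0) else 0 := by
  have e1 : {n : ℕ | 1 ≤ n ∧ n ≤ N ∧ n ∈ E ∧ s * n ∈ S} =
      ((Finset.Icc 1 N).filter (fun n : ℕ => n ∈ E ∧ s * (n : ℤ) ∈ S) : Finset ℕ) := by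
    ext n
    simp only [Set.mem_ofPred_eq, Finset.coe_filter, Finset.mem_Icc]
    tauto
  unfold Count
  rw [e1, Set.ncard_coe_finset, Finset.card_filter]
  push_cast
  apply Finset.sum_congr rfl; intro n _
  by_cases h1 : n ∈ E <;> by_cases h2 : s * (n : ℤ) ∈ S <;> simp [h1, h2]


open scoped Classical in
theorem count_sub (s : ℤ) (N : ℕ) (S : Set ℤ) (δ : ℝ) (E : Set ℕ) :
    (Count s N S E : ℝ) - δ * Count s N Set.univ E
      = ∑ n ∈ Finset.Icc 1 N, if n ∈ E then (S.indicator (fun _ => (1 : ℝ)) (s * n) - δ) else 0 := by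
  rw [count_eq, count_eq, Finset.mul_sum, ← Finset.sum_sub_distrib]
  apply Finset.sum_congr rfl; intro n _
  by_cases h2 : n ∈ E
  · rw [if_pos h2, if_pos h2, if_pos h2]
    by_cases h3 : s * (n : ℤ) ∈ S
    · rw [Set.indicator_of_mem h3, if_pos h3, if_pos (Set.mem_univ _)]; ring
    · rw [Set.indicator_of_notMem h3, if_neg h3, if_pos (Set.mem_univ _)]; ring
  · rw [if_neg h2, if_neg h2, if_neg h2]; simp

open scoped Classical in
/-- the sum over the level sets -/
theorem levels {s : ℤ} (hs : s = 1 ∨ s = -1) (r : ℕ) {ε : ℝ} (hε : 0 < ε) :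
    ∃ N₀ : ℕ, ∀ S : Set ℤ, Invariant S → ∃ δ : ℝ, HasDensity s S δ ∧
      ∀ N : ℕ, N₀ ≤ N → ∀ (A : Type) [AddCommMonoid A] (f : ℕ → A), Additive f → FewValues r f →
        ∑ a ∈ (Finset.Icc 1 N).image f, |(Count s N S {n | f n = a} : ℝ) - δ * Count s N Set.univ {n | f n = a}|
          ≤ ε * N := by
  obtain ⟨N0, H⟩ := orth hs r hε
  refine ⟨N0, fun S hS => ?_⟩
  obtain ⟨δ, hδ, h⟩ := H S hS
  refine ⟨δ, hδ, fun N hN A _ f hf hfV => ?_⟩
  set D : A → ℝ := fun a => (Count s N S {n | f n = a} : ℝ) - δ * Count s N Set.univ {n | f n = a} with hD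
  set σ : A → ℝ := fun a => if 0 ≤ D a then 1 else -1 with hσ
  have hσ1 : ∀ a, ‖((σ a : ℝ) : ℂ)‖ ≤ 1 := by
    intro a
    rw [Complex.norm_real, hσ]
    simp only
    split_ifs <;> simp
  have hσD : ∀ a, σ a * D a = |D a| := by
    intro a
    rw [hσ]
    simp only
    split_ifs with h
    · rw [one_mul, abs_of_nonneg h]
    · rw [neg_one_mul, abs_of_neg (not_le.1 h)]
  have h1 := h N hN A f hf hfV (fun a => ((σ a : ℝ) : ℂ)) hσ1 (fun _ => 1) ⟨fun _ => by simp, fun _ _ _ => by simp⟩ 0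
  have e0 : e 0 = 1 := by unfold e; simp
  have e1 : ∑ n ∈ Finset.Icc 1 N, ((S.indicator (fun _ => (1 : ℝ)) (s * n) - δ : ℝ) : ℂ) * 1 * e (0 * n) * ((σ (f n) : ℝ) : ℂ)
      = ((∑ a ∈ (Finset.Icc 1 N).image f, |D a| : ℝ) : ℂ) := by
    have e2 : ∑ a ∈ (Finset.Icc 1 N).image f, |D a| =
        ∑ n ∈ Finset.Icc 1 N, σ (f n) * (S.indicator (fun _ => (1 : ℝ)) (s * n) - δ) := by
      have e3 : ∀ a, |D a| = ∑ n ∈ Finset.Icc 1 N, if f n = a then σ (f n) * (S.indicator (fun _ => (1 : ℝ)) (s * n) - δ) else 0 := by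
        intro a
        rw [← hσD a, hD]
        simp only
        rw [count_sub, Finset.mul_sum]
        apply Finset.sum_congr rfl; intro n _
        by_cases h : f n = a
        · have h' : n ∈ {n | f n = a} := h
          rw [if_pos h, if_pos h', h]
        · have h' : n ∉ {n | f n = a} := h
          rw [if_neg h, if_neg h', mul_zero]
      simp_rw [e3]
      rw [Finset.sum_comm]
      apply Finset.sum_congr rfl; intro n hn
      rw [Finset.sum_ite_eq, if_pos (Finset.mem_image_of_mem f hn)]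
    rw [e2, Complex.ofReal_sum]
    apply Finset.sum_congr rfl; intro n _
    rw [zero_mul, e0]
    push_cast
    ring
  rw [e1, Complex.norm_real, Real.norm_eq_abs] at h1
  exact (le_abs_self _).trans h1

/-- the counting form -/
theorem count {s : ℤ} (hs : s = 1 ∨ s = -1) (r : ℕ) {ε : ℝ} (hε : 0 < ε) :
    ∃ N₀ : ℕ, ∀ S : Set ℤ, Invariant S → ∃ δ : ℝ, HasDensity s S δ ∧
      ∀ N : ℕ, N₀ ≤ N → ∀ (A : Type) [AddCommMonoid A] (f : ℕ → A), Additive f → FewValues r f →
        ∀ B : Set A, |(Count s N S {n | f n ∈ B} : ℝ) - δ * Count s N Set.univ {n | f n ∈ B}| ≤ ε * N := by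
  classical
  obtain ⟨N0, H⟩ := orth hs r hε
  refine ⟨N0, fun S hS => ?_⟩
  obtain ⟨δ, hδ, h⟩ := H S hS
  refine ⟨δ, hδ, fun N hN A _ f hf hfV B => ?_⟩
  have h1 := h N hN A f hf hfV (fun a => if a ∈ B then 1 else 0) (fun a => by split_ifs <;> simp)
    (fun _ => 1) ⟨fun _ => by simp, fun _ _ _ => by simp⟩ 0
  have e0 : e 0 = 1 := by unfold e; simp
  rw [count_sub, ← Real.norm_eq_abs, ← Complex.norm_real]
  refine le_trans (le_of_eq ?_) h1
  congr 1
  rw [Complex.ofReal_sum]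
  apply Finset.sum_congr rfl; intro n _
  simp only [zero_mul, e0, mul_one]
  by_cases h2 : f n ∈ B
  · rw [if_pos h2, if_pos (show n ∈ {n | f n ∈ B} from h2), mul_one]
  · rw [if_neg h2, if_neg (show n ∉ {n | f n ∈ B} from h2), mul_zero]; simp

/-- limit laws -/
theorem laws {s : ℤ} (hs : s = 1 ∨ s = -1) {S : Set ℤ} (hS : Invariant S) {δ : ℝ} (hδ : HasDensity s S δ) {r : ℕ}
    {A : Type} [AddCommMonoid A] {f : ℕ → ℕ → A} (hf : ∀ N, Additive (f N)) (hfV : ∀ N, FewValues r (f N))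
    {Φ : ℕ → A → ℂ} (hΦ : ∀ N a, ‖Φ N a‖ ≤ 1) {L : ℂ}
    (h : Tendsto (fun N : ℕ => (∑ n ∈ Finset.Icc 1 N, Φ N (f N n)) / N) atTop (𝓝 L)) :
    Tendsto (fun N : ℕ => (∑ n ∈ Finset.Icc 1 N, ((S.indicator (fun _ => (1 : ℝ)) (s * n) : ℝ) : ℂ) * Φ N (f N n)) / N)
      atTop (𝓝 (δ * L)) := by
  have h0 : Tendsto (fun N : ℕ => (∑ n ∈ Finset.Icc 1 N, ((S.indicator (fun _ => (1 : ℝ)) (s * n) : ℝ) : ℂ) * Φ N (f N n)) / N
      - δ * ((∑ n ∈ Finset.Icc 1 N, Φ N (f N n)) / N)) atTop (𝓝 0) := by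
    rw [Metric.tendsto_atTop]
    intro ε hε
    obtain ⟨N0, H⟩ := orth hs r (show 0 < ε / 2 by positivity)
    obtain ⟨δ', hδ', H'⟩ := H S hS
    have hdd : δ' = δ := tendsto_nhds_unique hδ' hδ
    rw [hdd] at H'
    refine ⟨N0 + 1, fun N hN => ?_⟩
    have hN0 : (0 : ℝ) < N := by exact_mod_cast (by omega : 0 < N)
    have h1 := H' N (by omega) A (f N) (hf N) (hfV N) (Φ N) (hΦ N) (fun _ => 1) ⟨fun _ => by simp, fun _ _ _ => by simp⟩ 0
    have e0 : e 0 = 1 := by unfold e; simp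
    rw [dist_eq_norm, sub_zero]
    have e1 : (∑ n ∈ Finset.Icc 1 N, ((S.indicator (fun _ => (1 : ℝ)) (s * n) : ℝ) : ℂ) * Φ N (f N n)) / N
        - δ * ((∑ n ∈ Finset.Icc 1 N, Φ N (f N n)) / N)
        = (∑ n ∈ Finset.Icc 1 N, ((S.indicator (fun _ => (1 : ℝ)) (s * n) - δ : ℝ) : ℂ) * 1 * e (0 * n) * Φ N (f N n)) / N := by
      rw [← mul_div_assoc, Finset.mul_sum, ← sub_div, ← Finset.sum_sub_distrib]
      congr 1
      apply Finset.sum_congr rfl; intro n _
      rw [zero_mul, e0]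
      push_cast
      ring
    have hN0' : ‖((N : ℕ) : ℂ)‖ = N := by rw [Complex.norm_natCast]
    rw [e1, norm_div, hN0', div_lt_iff₀ hN0]
    nlinarith
  have h1 := h0.add (h.const_mul (δ : ℂ))
  rw [zero_add] at h1
  refine h1.congr fun N => ?_
  ring

/-- sufficient sets -/
theorem sufficient {s : ℤ} (hs : s = 1 ∨ s = -1) {S : Set ℤ} (hS : Invariant S) {r : ℕ}
    {A : Type} [AddCommMonoid A] {f : ℕ → ℕ → A} (hf : ∀ N, Additive (f N)) (hfV : ∀ N, FewValues r (f N))
    {B : ℕ → Set A}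
    {κ : ℝ} (hκ : 0 < κ) {ψ : ℕ → ℝ} (hψ : Tendsto ψ atTop (𝓝 0))
    (h : ∃ᶠ N : ℕ in atTop, κ * N ≤ Count s N Set.univ {n | f N n ∈ B N} ∧
      (Count s N Sᶜ {n | f N n ∈ B N} : ℝ) ≤ ψ N * N) :
    ∀ x : ℤ, 0 < s * x → x ∈ S := by
  intro x hx
  by_contra hcon
  have hSc : Invariant Sᶜ := fun x => not_congr (hS x)
  obtain ⟨δ, hδ, hδ'⟩ := HD_iff hs hSc
  have hδ0 : 0 < δ := one_pos hs (inv_of hSc) hcon hx hδ
  obtain ⟨N0, hN0⟩ := count hs r (show 0 < δ * κ / 2 by positivity)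
  obtain ⟨δ₁, hd1, H⟩ := hN0 Sᶜ hSc
  have hdd : δ₁ = δ := tendsto_nhds_unique hd1 hδ'
  rw [hdd] at H
  have h1 : ∀ᶠ N : ℕ in atTop, ψ N < δ * κ / 2 := (tendsto_order.1 hψ).2 _ (by positivity)
  obtain ⟨N, ⟨h2, h3⟩, h4, h5⟩ := (h.and_eventually (h1.and (eventually_ge_atTop (N0 + 1)))).exists
  have h6 := (abs_le.1 (H N (by omega) A (f N) (hf N) (hfV N) (B N))).1
  have hNp : (0 : ℝ) < N := by exact_mod_cast (by omega : 0 < N)
  have h7 : ψ N * N < δ * κ / 2 * N := mul_lt_mul_of_pos_right h4 hNp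
  have h8 : δ * (κ * N) ≤ δ * Count s N Set.univ {n | f N n ∈ B N} := mul_le_mul_of_nonneg_left h2 hδ0.le
  linarith

theorem omega_additive {k : ℕ} (P : Fin k → Set ℕ) : Additive (omega P) := by
  classical
  intro m n hmn
  funext i
  show ((m * n).primeFactors.filter _).card = (m.primeFactors.filter _).card + (n.primeFactors.filter _).card
  rw [Nat.Coprime.primeFactors_mul hmn, Finset.filter_union, Finset.card_union_of_disjoint]
  exact Finset.disjoint_filter_filter (Nat.Coprime.disjoint_primeFactors hmn)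

theorem bigOmega_additive {k : ℕ} (P : Fin k → Set ℕ) : Additive (bigOmega P) := by
  classical
  intro m n hmn
  funext i
  show ((m * n).primeFactorsList.filter _).length = (m.primeFactorsList.filter _).length + (n.primeFactorsList.filter _).length
  rw [((Nat.perm_primeFactorsList_mul_of_coprime hmn).filter _).length_eq, List.filter_append, List.length_append]

theorem few_vectors (k : ℕ) : (Fintype.piFinset (fun _ : Fin k => ({0, 1} : Finset ℕ))).card = 2 ^ k := by
  rw [Fintype.card_piFinset]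
  simp

theorem omega_few {k : ℕ} (P : Fin k → Set ℕ) : FewValues (2 ^ k) (omega P) := by
  classical
  refine ⟨Fintype.piFinset (fun _ => {0, 1}), (few_vectors k).le, fun p hp => ?_⟩
  rw [Fintype.mem_piFinset]
  intro i
  show (p.primeFactors.filter _).card ∈ _
  rw [hp.primeFactors, Finset.filter_singleton]
  split_ifs <;> simp

theorem bigOmega_few {k : ℕ} (P : Fin k → Set ℕ) : FewValues (2 ^ k) (bigOmega P) := by
  classical
  refine ⟨Fintype.piFinset (fun _ => {0, 1}), (few_vectors k).le, fun p hp => ?_⟩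
  rw [Fintype.mem_piFinset]
  intro i
  show (p.primeFactorsList.filter _).length ∈ _
  rw [Nat.primeFactorsList_prime hp]
  by_cases h : p ∈ P i
  · simp [h]
  · simp [h]

open scoped Classical in
/-- THE SETS INVARIANT UNDER THE COLLATZ MAP AND THE NUMBER OF PRIME FACTORS. Let `s` be a sign.
(1) For all `r` and `ε > 0`, if `N` is large, then for every invariant set `S` of integers, of density `δ` among
the integers of sign `s` (the density exists), every additive function `f` with values in a commutative monoid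
`A` and at most `r` different values at the primes: (a) the sum over `n ≤ N` of
`(1_S(s n) - δ) g(n) exp (2 π i α n) Φ(f(n))` is at most `ε N` in absolute value for EVERY function `Φ` on `A`
with values in the unit disc, every multiplicative `g` with values in the unit disc and every real `α`; (b) the
sum over all values `a` of the absolute differences between the number of the `n ≤ N` with `f n = a` and
`s n ∈ S`, and `δ` times the number of the `n ≤ N` with `f n = a`, is at most `ε N`; (c) so the number of the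
`n ≤ N` with `f n ∈ B` and `s n ∈ S` is `δ` times the number of the `n ≤ N` with `f n ∈ B`, up to `ε N`, for
every set `B`. (2) EXAMPLES are the vectors of the numbers of prime factors, without or with multiplicity, in
`k` arbitrary sets of primes, with `r = 2 ^ k`. (3) MEANS. Let the additive functions `f N` and functions `Φ N` with
values in the unit disc depend on `N` in any way. If the mean of `Φ N (f N n)` over `n ≤ N` tends to `L`, then
its sum over the `n ≤ N` with `s n ∈ S`, divided by `N`, tends to `δ L`. (4) SUFFICIENT SETS. If, for infinitely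
many `N`, at least `κ N` of the `n ≤ N` satisfy `f N n ∈ B N` and almost all of these satisfy `s n ∈ S`, then `S`
contains all integers of the sign of `s`. -/
theorem result (s : ℤ) (hs : s = 1 ∨ s = -1) :
    (∀ (r : ℕ) (ε : ℝ), 0 < ε → ∃ N₀ : ℕ, ∀ S : Set ℤ, Invariant S → ∃ δ : ℝ, HasDensity s S δ ∧
      ∀ N : ℕ, N₀ ≤ N → ∀ (A : Type) [AddCommMonoid A] (f : ℕ → A), Additive f → FewValues r f →
        (∀ Φ : A → ℂ, (∀ a, ‖Φ a‖ ≤ 1) → ∀ g : ℕ → ℂ, Multiplicative g → ∀ α : ℝ,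
          ‖∑ n ∈ Finset.Icc 1 N,
            ((S.indicator (fun _ => (1 : ℝ)) (s * n) - δ : ℝ) : ℂ) * g n * e (α * n) * Φ (f n)‖ ≤ ε * N) ∧
        ∑ a ∈ (Finset.Icc 1 N).image f, |(Count s N S {n | f n = a} : ℝ) - δ * Count s N Set.univ {n | f n = a}|
          ≤ ε * N ∧
        ∀ B : Set A, |(Count s N S {n | f n ∈ B} : ℝ) - δ * Count s N Set.univ {n | f n ∈ B}| ≤ ε * N) ∧
    (∀ (k : ℕ) (P : Fin k → Set ℕ), (Additive (omega P) ∧ FewValues (2 ^ k) (omega P)) ∧
      (Additive (bigOmega P) ∧ FewValues (2 ^ k) (bigOmega P))) ∧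
    (∀ S : Set ℤ, Invariant S → ∀ δ : ℝ, HasDensity s S δ → ∀ (r : ℕ) (A : Type) [AddCommMonoid A]
      (f : ℕ → ℕ → A), (∀ N, Additive (f N)) → (∀ N, FewValues r (f N)) →
      ∀ Φ : ℕ → A → ℂ, (∀ N a, ‖Φ N a‖ ≤ 1) → ∀ L : ℂ,
      Tendsto (fun N : ℕ => (∑ n ∈ Finset.Icc 1 N, Φ N (f N n)) / N) atTop (𝓝 L) →
      Tendsto (fun N : ℕ =>
        (∑ n ∈ Finset.Icc 1 N, ((S.indicator (fun _ => (1 : ℝ)) (s * n) : ℝ) : ℂ) * Φ N (f N n)) / N)
        atTop (𝓝 (δ * L))) ∧
    ∀ S : Set ℤ, Invariant S → ∀ (r : ℕ) (A : Type) [AddCommMonoid A]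
      (f : ℕ → ℕ → A), (∀ N, Additive (f N)) → (∀ N, FewValues r (f N)) → ∀ (B : ℕ → Set A) (κ : ℝ) (ψ : ℕ → ℝ),
      0 < κ → Tendsto ψ atTop (𝓝 0) →
      (∃ᶠ N : ℕ in atTop, κ * N ≤ Count s N Set.univ {n | f N n ∈ B N} ∧
        (Count s N Sᶜ {n | f N n ∈ B N} : ℝ) ≤ ψ N * N) →
      ∀ x : ℤ, 0 < s * x → x ∈ S := by
  refine ⟨fun r ε hε => ?_, fun k P => ⟨⟨omega_additive P, omega_few P⟩, ⟨bigOmega_additive P, bigOmega_few P⟩⟩,
    fun S hS δ hδ r A _ f hf hfV Φ hΦ L h => laws hs hS hδ hf hfV hΦ h,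
    fun S hS r A _ f hf hfV B κ ψ hκ hψ h => sufficient hs hS hf hfV hκ hψ h⟩
  obtain ⟨N1, H1⟩ := orth hs r hε
  obtain ⟨N2, H2⟩ := levels hs r hε
  obtain ⟨N3, H3⟩ := count hs r hε
  refine ⟨N1 + N2 + N3, fun S hS => ?_⟩
  obtain ⟨δ1, hδ1, h1⟩ := H1 S hS
  obtain ⟨δ2, hδ2, h2⟩ := H2 S hS
  obtain ⟨δ3, hδ3, h3⟩ := H3 S hS
  have e2 : δ2 = δ1 := tendsto_nhds_unique hδ2 hδ1
  have e3 : δ3 = δ1 := tendsto_nhds_unique hδ3 hδ1
  rw [e2] at h2
  rw [e3] at h3
  exact ⟨δ1, hδ1, fun N hN A _ f hf hfV => ⟨h1 N (by omega) A f hf hfV, h2 N (by omega) A f hf hfV,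
    h3 N (by omega) A f hf hfV⟩⟩

end Pool.Agent.Results.MP_d02c56_nt.LevelSets
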